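import Pool.Agent.P.MP_cd1425_an.Density

/-!
The counterexample: the normed space and the operator.
-/

set_option autoImplicit false

open Filter Topology

namespace Pool.Agent.P.MP_cd1425_an

/-! ### combinatorial data -/

lemma exists_tag : ∃ c : ℕ → ℕ × ℕ, ∀ t, ∃ G : ℕ, ∀ n, ∃ k, n ≤ k ∧ k ≤ n + G ∧ c k = t := by
  refine ⟨fun k => Nat.unpair (padicValNat 2 (k + 1)), fun t => ?_⟩
  set a := Nat.pair t.1 t.2 with ha
  refine ⟨2 ^ a * 2 + 2 ^ a, fun n => ?_⟩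
  have hpos : 0 < 2 ^ a := by positivity
  set s := n / (2 ^ a * 2) + 1 with hs
  have h1 := Nat.div_add_mod n (2 ^ a * 2)
  have h2 := Nat.mod_lt n (show 0 < 2 ^ a * 2 by positivity)
  have h3 : 2 ^ a * (2 * s + 1) = 2 ^ a * 2 * (n / (2 ^ a * 2)) + 2 ^ a * 2 + 2 ^ a := by
    rw [hs]; ring
  refine ⟨2 ^ a * (2 * s + 1) - 1, by omega, by omega, ?_⟩
  have h4 : 2 ^ a * (2 * s + 1) - 1 + 1 = 2 ^ a * (2 * s + 1) := by omega
  have h5 : padicValNat 2 (2 ^ a * (2 * s + 1)) = a := by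
    rw [padicValNat.mul (by positivity) (by omega), padicValNat.prime_pow,
      padicValNat.eq_zero_of_not_dvd (by omega), add_zero]
  change Nat.unpair (padicValNat 2 (2 ^ a * (2 * s + 1) - 1 + 1)) = t
  rw [h4, h5, ha, Nat.unpair_pair]

/-- a colouring of the scales in which every colour class is syndetic. -/
noncomputable def tag : ℕ → ℕ × ℕ := exists_tag.choose

lemma tag_spec (t : ℕ × ℕ) : ∃ G : ℕ, ∀ n, ∃ k, n ≤ k ∧ k ≤ n + G ∧ tag k = t :=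
  exists_tag.choose_spec t

/-- the average of `f` over the block `[4^k, 4^(k+1))`. -/
noncomputable def avg (k : ℕ) (f : ℕ → ℝ) : ℝ :=
  (∑ n ∈ Finset.Ico (4 ^ k) (4 ^ (k + 1)), f n) / (3 * 4 ^ k)

lemma card_block (k : ℕ) : ((Finset.Ico (4 ^ k) (4 ^ (k + 1))).card : ℝ) = 3 * 4 ^ k := by
  rw [Nat.card_Ico, show 4 ^ (k + 1) - 4 ^ k = 3 * 4 ^ k by rw [pow_succ]; omega]
  push_cast; ring

lemma avg_mono {k : ℕ} {f g : ℕ → ℝ} (h : ∀ n, 4 ^ k ≤ n → n < 4 ^ (k + 1) → f n ≤ g n) :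
    avg k f ≤ avg k g := by
  unfold avg
  refine div_le_div_of_nonneg_right (Finset.sum_le_sum fun n hn => ?_) (by positivity)
  rw [Finset.mem_Ico] at hn
  exact h n hn.1 hn.2

lemma avg_const (k : ℕ) (c : ℝ) : avg k (fun _ => c) = c := by
  unfold avg
  rw [Finset.sum_const, nsmul_eq_mul, card_block]
  field_simp

lemma avg_add (k : ℕ) (f g : ℕ → ℝ) : avg k (fun n => f n + g n) = avg k f + avg k g := by
  unfold avg
  rw [Finset.sum_add_distrib, add_div]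

lemma avg_mul (k : ℕ) (c : ℝ) (f : ℕ → ℝ) : avg k (fun n => c * f n) = c * avg k f := by
  unfold avg
  rw [← Finset.mul_sum, mul_div_assoc]

lemma avg_nonneg {k : ℕ} {f : ℕ → ℝ} (h : ∀ n, 0 ≤ f n) : 0 ≤ avg k f := by
  rw [← avg_const k 0]
  exact avg_mono fun n _ _ => h n

lemma avg_le {k : ℕ} {f : ℕ → ℝ} {c : ℝ} (h : ∀ n, 4 ^ k ≤ n → n < 4 ^ (k + 1) → f n ≤ c) :
    avg k f ≤ c := by
  rw [← avg_const k c]
  exact avg_mono h

variable (𝕜 : Type) [RCLike 𝕜]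

lemma exists_dirs : ∃ u : ℕ → 𝕜 × 𝕜, (∀ i, u i ≠ 0) ∧ DenseRange u := by
  have hd : Dense ({0}ᶜ : Set (𝕜 × 𝕜)) := dense_compl_singleton 0
  have : Nonempty ({0}ᶜ : Set (𝕜 × 𝕜)) := hd.nonempty.to_subtype
  obtain ⟨u, hu⟩ := TopologicalSpace.exists_dense_seq ({0}ᶜ : Set (𝕜 × 𝕜))
  exact ⟨fun i => u i, fun i => (u i).2, hd.denseRange_val.comp hu continuous_subtype_val⟩

/-- a dense sequence of nonzero vectors of the plane. -/
noncomputable def dirs : ℕ → 𝕜 × 𝕜 := (exists_dirs 𝕜).choose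

lemma dirs_ne (i : ℕ) : dirs 𝕜 i ≠ 0 := (exists_dirs 𝕜).choose_spec.1 i

lemma dirs_dense : DenseRange (dirs 𝕜) := (exists_dirs 𝕜).choose_spec.2

variable {𝕜}

/-- the normalised functional that kills `u`. -/
noncomputable def gl (u : 𝕜 × 𝕜) : (𝕜 × 𝕜) →ₗ[𝕜] 𝕜 where
  toFun w := (u.1 * w.2 - u.2 * w.1) / (‖u‖ : 𝕜)
  map_add' a b := by simp only [Prod.fst_add, Prod.snd_add]; ring
  map_smul' c a := by simp only [Prod.smul_fst, Prod.smul_snd, smul_eq_mul, RingHom.id_apply]; ring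

lemma gl_self (u : 𝕜 × 𝕜) : gl u u = 0 := by
  simp [gl, mul_comm]

lemma norm_gl_le (u w : 𝕜 × 𝕜) : ‖gl u w‖ ≤ 2 * ‖w‖ := by
  rcases eq_or_ne u 0 with rfl | hu
  · simp [gl]
  have hpos : 0 < ‖u‖ := norm_pos_iff.2 hu
  simp only [gl, LinearMap.coe_mk, AddHom.coe_mk, norm_div, RCLike.norm_ofReal, abs_norm]
  rw [div_le_iff₀ hpos]
  calc ‖u.1 * w.2 - u.2 * w.1‖ ≤ ‖u.1 * w.2‖ + ‖u.2 * w.1‖ := norm_sub_le _ _
    _ = ‖u.1‖ * ‖w.2‖ + ‖u.2‖ * ‖w.1‖ := by rw [norm_mul, norm_mul]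
    _ ≤ ‖u‖ * ‖w‖ + ‖u‖ * ‖w‖ := by
        gcongr
        · exact norm_fst_le u
        · exact norm_snd_le w
        · exact norm_snd_le u
        · exact norm_fst_le w
    _ = 2 * ‖w‖ * ‖u‖ := by ring

lemma one_le_gl {u : 𝕜 × 𝕜} (hu : u ≠ 0) : 1 ≤ ‖gl u (1, 0)‖ ∨ 1 ≤ ‖gl u (0, 1)‖ := by
  have hpos : 0 < ‖u‖ := norm_pos_iff.2 hu
  simp only [gl, LinearMap.coe_mk, AddHom.coe_mk, norm_div, RCLike.norm_ofReal, abs_norm,
    mul_zero, mul_one, zero_sub, sub_zero, norm_neg, le_div_iff₀ hpos, one_mul]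
  rw [Prod.norm_def]
  rcases le_total ‖u.1‖ ‖u.2‖ with h | h
  · left; rw [max_eq_right h]
  · right; rw [max_eq_left h]

/-- the functional attached to the scale `k`. -/
noncomputable def gk (k : ℕ) : (𝕜 × 𝕜) →ₗ[𝕜] 𝕜 := gl (dirs 𝕜 (tag k).1)

lemma norm_gk_le (k : ℕ) (w : 𝕜 × 𝕜) : ‖gk k w‖ ≤ 2 * ‖w‖ := norm_gl_le _ _

/-! ### the normed space -/

variable (𝕜) in
/-- bounded arrays with the two limit conditions. -/
def Dsub : Submodule 𝕜 ((𝕜 × 𝕜) × (ℕ → ℕ → 𝕜)) where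
  carrier := {d | (∃ B : ℝ, ∀ k n, ‖d.2 k n‖ ≤ B) ∧
    (∀ j, Tendsto (fun k => d.2 k j) atTop (𝓝 0)) ∧
    ∀ j, Tendsto (fun k => avg k (fun n => ‖d.2 k (n + j) - gk k d.1‖)) atTop (𝓝 0)}
  zero_mem' := ⟨⟨0, by simp⟩, by simp, by simp [avg]⟩
  add_mem' := by
    rintro a b ⟨⟨B, hB⟩, ha, ha'⟩ ⟨⟨C, hC⟩, hb, hb'⟩
    refine ⟨⟨B + C, fun k n => (norm_add_le _ _).trans (add_le_add (hB k n) (hC k n))⟩,
      fun j => by simpa using (ha j).add (hb j), fun j => ?_⟩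
    have := (ha' j).add (hb' j)
    rw [add_zero] at this
    refine squeeze_zero (fun k => avg_nonneg fun n => norm_nonneg _) (fun k => ?_) this
    rw [← avg_add]
    refine avg_mono fun n _ _ => ?_
    simp only [Prod.snd_add, Pi.add_apply, Prod.fst_add, map_add]
    rw [add_sub_add_comm]
    exact norm_add_le _ _
  smul_mem' := by
    rintro c a ⟨⟨B, hB⟩, ha, ha'⟩
    refine ⟨⟨‖c‖ * B, fun k n => ?_⟩, fun j => by simpa using (ha j).const_smul c, fun j => ?_⟩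
    · simp only [Prod.smul_snd, Pi.smul_apply, norm_smul]
      exact mul_le_mul_of_nonneg_left (hB k n) (norm_nonneg c)
    · have := (ha' j).const_mul ‖c‖
      rw [mul_zero] at this
      refine this.congr fun k => ?_
      rw [← avg_mul]
      congr 1
      funext n
      simp only [Prod.smul_snd, Pi.smul_apply, Prod.smul_fst, map_smul]
      rw [← smul_sub, norm_smul]

variable (𝕜) in
/-- the incomplete space. -/
def D : Type := ↥(Dsub 𝕜)

noncomputable instance : AddCommGroup (D 𝕜) := inferInstanceAs (AddCommGroup ↥(Dsub 𝕜))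
noncomputable instance : Module 𝕜 (D 𝕜) := inferInstanceAs (Module 𝕜 ↥(Dsub 𝕜))

/-- the plane coordinate. -/
def D.v (d : D 𝕜) : 𝕜 × 𝕜 := (Subtype.val d).1
/-- the array coordinate. -/
def D.y (d : D 𝕜) : ℕ → ℕ → 𝕜 := (Subtype.val d).2

@[simp] lemma D.v_add (a b : D 𝕜) : (a + b).v = a.v + b.v := rfl
@[simp] lemma D.y_add (a b : D 𝕜) (k n : ℕ) : (a + b).y k n = a.y k n + b.y k n := rfl
@[simp] lemma D.v_sub (a b : D 𝕜) : (a - b).v = a.v - b.v := rfl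
@[simp] lemma D.y_sub (a b : D 𝕜) (k n : ℕ) : (a - b).y k n = a.y k n - b.y k n := rfl
@[simp] lemma D.v_smul (c : 𝕜) (a : D 𝕜) : (c • a).v = c • a.v := rfl
@[simp] lemma D.y_smul (c : 𝕜) (a : D 𝕜) (k n : ℕ) : (c • a).y k n = c • a.y k n := rfl
@[simp] lemma D.v_zero : (0 : D 𝕜).v = 0 := rfl
@[simp] lemma D.y_zero (k n : ℕ) : (0 : D 𝕜).y k n = 0 := rfl

lemma D.bdd (d : D 𝕜) : ∃ B : ℝ, ∀ k n, ‖d.y k n‖ ≤ B := (Subtype.property d).1
lemma D.lim₁ (d : D 𝕜) (j : ℕ) : Tendsto (fun k => d.y k j) atTop (𝓝 0) :=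
  (Subtype.property d).2.1 j
lemma D.lim₂ (d : D 𝕜) (j : ℕ) :
    Tendsto (fun k => avg k (fun n => ‖d.y k (n + j) - gk k d.v‖)) atTop (𝓝 0) :=
  (Subtype.property d).2.2 j

/-- build an element. -/
def D.mk (v : 𝕜 × 𝕜) (y : ℕ → ℕ → 𝕜) (h₀ : ∃ B : ℝ, ∀ k n, ‖y k n‖ ≤ B)
    (h₁ : ∀ j, Tendsto (fun k => y k j) atTop (𝓝 0))
    (h₂ : ∀ j, Tendsto (fun k => avg k (fun n => ‖y k (n + j) - gk k v‖)) atTop (𝓝 0)) : D 𝕜 :=
  (⟨(v, y), h₀, h₁, h₂⟩ : ↥(Dsub 𝕜))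

lemma D.ext {a b : D 𝕜} (h₁ : a.v = b.v) (h₂ : ∀ k n, a.y k n = b.y k n) : a = b :=
  Subtype.ext (Prod.ext h₁ (funext fun k => funext fun n => h₂ k n))

/-- the `(k, j)` term of the norm. -/
noncomputable def term (d : D 𝕜) (k j : ℕ) : ℝ :=
  (1 / 2) ^ j * (‖d.y k j‖ + avg k (fun n => ‖d.y k (n + j)‖))

lemma term_nonneg (d : D 𝕜) (k j : ℕ) : 0 ≤ term d k j :=
  mul_nonneg (by positivity) (add_nonneg (norm_nonneg _) (avg_nonneg fun _ => norm_nonneg _))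

lemma term_le_of_bound {d : D 𝕜} {B : ℝ} (hB : ∀ k n, ‖d.y k n‖ ≤ B) (k j : ℕ) :
    term d k j ≤ (1 / 2) ^ j * (2 * B) := by
  refine mul_le_mul_of_nonneg_left ?_ (by positivity)
  have := avg_le (k := k) (f := fun n => ‖d.y k (n + j)‖) fun n _ _ => hB k (n + j)
  linarith [hB k j]

lemma bddAbove_term (d : D 𝕜) : BddAbove (Set.range fun p : ℕ × ℕ => term d p.1 p.2) := by
  obtain ⟨B, hB⟩ := d.bdd
  have hB0 : 0 ≤ B := (norm_nonneg _).trans (hB 0 0)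
  refine ⟨2 * B, ?_⟩
  rintro _ ⟨p, rfl⟩
  refine (term_le_of_bound hB _ _).trans ?_
  exact mul_le_of_le_one_left (by positivity) (pow_le_one₀ (by norm_num) (by norm_num))

/-- the norm. -/
noncomputable def nrm (d : D 𝕜) : ℝ := max ‖d.v‖ (⨆ p : ℕ × ℕ, term d p.1 p.2)

lemma term_le_nrm (d : D 𝕜) (k j : ℕ) : term d k j ≤ nrm d :=
  le_max_of_le_right (le_ciSup (bddAbove_term d) (k, j))

lemma v_le_nrm (d : D 𝕜) : ‖d.v‖ ≤ nrm d := le_max_left _ _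

lemma nrm_nonneg (d : D 𝕜) : 0 ≤ nrm d := (norm_nonneg d.v).trans (v_le_nrm d)

lemma nrm_le {d : D 𝕜} {C : ℝ} (h₁ : ‖d.v‖ ≤ C) (h₂ : ∀ k j, term d k j ≤ C) : nrm d ≤ C :=
  max_le h₁ (ciSup_le fun p => h₂ p.1 p.2)

variable (𝕜) in
/-- the norm as a seminorm. -/
noncomputable def nrmS : Seminorm 𝕜 (D 𝕜) :=
  Seminorm.ofSMulLE nrm
    (le_antisymm (nrm_le (by simp) fun k j => by simp [term, avg])
      (nrm_nonneg _))
    (fun a b => by
      refine nrm_le ((norm_add_le _ _).trans (add_le_add (v_le_nrm a) (v_le_nrm b)))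
        fun k j => le_trans ?_ (add_le_add (term_le_nrm a k j) (term_le_nrm b k j))
      unfold term
      rw [← mul_add]
      refine mul_le_mul_of_nonneg_left ?_ (by positivity)
      have h1 : avg k (fun n => ‖(a + b).y k (n + j)‖) ≤
          avg k (fun n => ‖a.y k (n + j)‖) + avg k (fun n => ‖b.y k (n + j)‖) := by
        rw [← avg_add]
        exact avg_mono fun n _ _ => norm_add_le _ _
      have h2 : ‖(a + b).y k j‖ ≤ ‖a.y k j‖ + ‖b.y k j‖ := norm_add_le _ _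
      linarith)
    (fun c a => by
      refine nrm_le ?_ fun k j => le_trans (le_of_eq ?_)
        (mul_le_mul_of_nonneg_left (term_le_nrm a k j) (norm_nonneg c))
      · rw [D.v_smul, norm_smul]
        exact mul_le_mul_of_nonneg_left (v_le_nrm a) (norm_nonneg c)
      · simp only [term, D.y_smul, norm_smul, avg_mul]
        ring)

noncomputable instance : SeminormedAddCommGroup (D 𝕜) :=
  (nrmS 𝕜).toAddGroupSeminorm.toSeminormedAddCommGroup

lemma D.norm_def (d : D 𝕜) : ‖d‖ = nrm d := rfl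

noncomputable instance : NormedSpace 𝕜 (D 𝕜) :=
  ⟨fun c d => (map_smul_eq_mul (nrmS 𝕜) c d).le⟩

/-- the shift, as a linear map. -/
noncomputable def shiftL : D 𝕜 →ₗ[𝕜] D 𝕜 where
  toFun d := D.mk d.v (fun k n => d.y k (n + 1))
    (by obtain ⟨B, hB⟩ := d.bdd; exact ⟨B, fun k n => hB k _⟩)
    (fun j => d.lim₁ (j + 1)) (fun j => d.lim₂ (j + 1))
  map_add' _ _ := rfl
  map_smul' _ _ := rfl

lemma norm_shiftL_le (d : D 𝕜) : ‖shiftL d‖ ≤ 2 * ‖d‖ := by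
  have h0 : 0 ≤ nrm d := nrm_nonneg d
  rw [D.norm_def, D.norm_def]
  refine nrm_le ((v_le_nrm d).trans (by linarith)) fun k j => ?_
  have : term (shiftL d) k j = 2 * term d k (j + 1) := by
    have e : ∀ n, (shiftL d).y k n = d.y k (n + 1) := fun _ => rfl
    simp only [term, e, pow_succ, add_assoc]
    ring
  rw [this]
  linarith [term_le_nrm d k (j + 1)]

/-- the shift on the incomplete space. -/
noncomputable def shiftD : D 𝕜 →L[𝕜] D 𝕜 := shiftL.mkContinuous 2 norm_shiftL_le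

lemma shiftD_iterate_v (d : D 𝕜) (m : ℕ) : ((shiftD : D 𝕜 → D 𝕜)^[m] d).v = d.v := by
  induction m with
  | zero => rfl
  | succ m ih => rw [Function.iterate_succ_apply']; exact ih

lemma shiftD_iterate_y (d : D 𝕜) (m k n : ℕ) :
    ((shiftD : D 𝕜 → D 𝕜)^[m] d).y k n = d.y k (n + m) := by
  induction m generalizing n with
  | zero => rfl
  | succ m ih =>
    rw [Function.iterate_succ_apply']
    change ((shiftD : D 𝕜 → D 𝕜)^[m] d).y k (n + 1) = _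
    rw [ih, add_assoc, add_comm 1 m]

/-- the projection on the plane. -/
noncomputable def projD : D 𝕜 →L[𝕜] 𝕜 × 𝕜 :=
  LinearMap.mkContinuous
    { toFun := D.v, map_add' := fun _ _ => rfl, map_smul' := fun _ _ => rfl } 1
    (fun d => by rw [one_mul]; exact v_le_nrm d)

lemma norm_y_zero_le (d : D 𝕜) (k : ℕ) : ‖d.y k 0‖ ≤ ‖d‖ := by
  have h := term_le_nrm d k 0
  have h2 : 0 ≤ avg k (fun n => ‖d.y k (n + 0)‖) := avg_nonneg fun _ => norm_nonneg _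
  simp only [term, pow_zero, one_mul] at h
  rw [D.norm_def]
  linarith

lemma avg_y_le (d : D 𝕜) (k : ℕ) : avg k (fun n => ‖d.y k n‖) ≤ ‖d‖ := by
  have h := term_le_nrm d k 0
  simp only [term, pow_zero, one_mul, add_zero] at h
  rw [D.norm_def]
  linarith [norm_nonneg (d.y k 0)]

/-- evaluation of the `k`-th row at time `0`. -/
noncomputable def evD (k : ℕ) : D 𝕜 →L[𝕜] 𝕜 :=
  LinearMap.mkContinuous
    { toFun := fun d => d.y k 0, map_add' := fun _ _ => rfl, map_smul' := fun _ _ => rfl } 1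
    (fun d => by rw [one_mul]; exact norm_y_zero_le d k)

end Pool.Agent.P.MP_cd1425_an
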