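import Pool.Agent.P.MP_cd1425_an.Cex1

/-!
The counterexample: the Banach space, and failure of recurrence for direct sums.
-/

set_option autoImplicit false

open Filter Topology UniformSpace

namespace Pool.Agent.P.MP_cd1425_an

variable {𝕜 : Type} [RCLike 𝕜]

variable (𝕜) in
/-- the Banach space. -/
abbrev XX : Type := Completion (D 𝕜)

variable (𝕜) in
/-- the operator. -/
noncomputable def TT : XX 𝕜 →L[𝕜] XX 𝕜 := (shiftD : D 𝕜 →L[𝕜] D 𝕜).completion

lemma TT_iterate_coe (d : D 𝕜) (m : ℕ) :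
    (TT 𝕜 : XX 𝕜 → XX 𝕜)^[m] (d : XX 𝕜) = (((shiftD : D 𝕜 → D 𝕜)^[m] d : D 𝕜) : XX 𝕜) := by
  induction m with
  | zero => rfl
  | succ m ih =>
    rw [Function.iterate_succ_apply', Function.iterate_succ_apply', ih]
    exact ContinuousLinearMap.completion_apply_coe _ _

/-- the projection on the plane. -/
noncomputable def PP : XX 𝕜 →L[𝕜] 𝕜 × 𝕜 := (projD : D 𝕜 →L[𝕜] 𝕜 × 𝕜).fromCompletion

/-- the evaluations. -/
noncomputable def ev (k : ℕ) : XX 𝕜 →L[𝕜] 𝕜 := (evD k : D 𝕜 →L[𝕜] 𝕜).fromCompletion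

lemma PP_coe (d : D 𝕜) : PP (d : XX 𝕜) = d.v := ContinuousLinearMap.fromCompletion_apply_coe _ _

lemma ev_coe (k : ℕ) (d : D 𝕜) : ev k (d : XX 𝕜) = d.y k 0 :=
  ContinuousLinearMap.fromCompletion_apply_coe _ _

lemma ev_iterate_coe (k m : ℕ) (d : D 𝕜) :
    ev k ((TT 𝕜 : XX 𝕜 → XX 𝕜)^[m] (d : XX 𝕜)) = d.y k m := by
  rw [TT_iterate_coe, ev_coe, shiftD_iterate_y, zero_add]

lemma norm_ev_le (k : ℕ) (x : XX 𝕜) : ‖ev k x‖ ≤ ‖x‖ := by
  induction x using Completion.induction_on with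
  | hp => exact isClosed_le (by fun_prop) (by fun_prop)
  | ih d => rw [ev_coe, Completion.norm_coe]; exact norm_y_zero_le d k

/-- the mean deviation on the block `k`. -/
noncomputable def theta (k : ℕ) (x : XX 𝕜) : ℝ :=
  avg k (fun n => ‖ev k ((TT 𝕜 : XX 𝕜 → XX 𝕜)^[n] x) - gk k (PP x)‖)

lemma continuous_gk (k : ℕ) : Continuous (gk k : 𝕜 × 𝕜 → 𝕜) :=
  LinearMap.continuous_of_finiteDimensional _

lemma continuous_theta (k : ℕ) : Continuous (theta k : XX 𝕜 → ℝ) := by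
  unfold theta avg
  refine Continuous.div_const (continuous_finsetSum _ fun n _ => Continuous.norm ?_) _
  exact ((ev k).continuous.comp ((TT 𝕜).continuous.iterate n)).sub
    ((continuous_gk k).comp PP.continuous)

lemma theta_le (k : ℕ) (x : XX 𝕜) : theta k x ≤ 3 * ‖x‖ := by
  induction x using Completion.induction_on with
  | hp => exact isClosed_le (continuous_theta k) (by fun_prop)
  | ih d =>
    simp only [theta, ev_iterate_coe, PP_coe, Completion.norm_coe]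
    have h1 : avg k (fun n => ‖d.y k n - gk k d.v‖) ≤
        avg k (fun n => ‖d.y k n‖ + ‖gk k d.v‖) := avg_mono fun n _ _ => norm_sub_le _ _
    rw [avg_add, avg_const] at h1
    have h2 := avg_y_le d k
    have h3 := norm_gk_le k d.v
    have h4 : ‖d.v‖ ≤ ‖d‖ := v_le_nrm d
    linarith

lemma iterate_TT_add (n : ℕ) (x y : XX 𝕜) :
    (TT 𝕜 : XX 𝕜 → XX 𝕜)^[n] (x + y) =
      (TT 𝕜 : XX 𝕜 → XX 𝕜)^[n] x + (TT 𝕜 : XX 𝕜 → XX 𝕜)^[n] y := by
  induction n with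
  | zero => rfl
  | succ n ih => simp only [Function.iterate_succ_apply', ih, map_add]

lemma theta_add_le (k : ℕ) (x y : XX 𝕜) : theta k (x + y) ≤ theta k x + theta k y := by
  unfold theta
  rw [← avg_add]
  refine avg_mono fun n _ _ => ?_
  rw [iterate_TT_add, map_add, map_add, map_add, add_sub_add_comm]
  exact norm_add_le _ _

lemma theta_nonneg (k : ℕ) (x : XX 𝕜) : 0 ≤ theta k x := avg_nonneg fun _ => norm_nonneg _

lemma eventually_theta_le (x : XX 𝕜) {ε : ℝ} (hε : 0 < ε) : ∀ᶠ k in atTop, theta k x ≤ ε := by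
  obtain ⟨d, hd⟩ := Completion.denseRange_coe.exists_dist_lt x (show 0 < ε / 6 by positivity)
  have h1 := (d.lim₂ 0).eventually (ge_mem_nhds (show (0 : ℝ) < ε / 2 by positivity))
  filter_upwards [h1] with k hk
  have h2 := theta_add_le k (d : XX 𝕜) (x - (d : XX 𝕜))
  have h3 := theta_le k (x - (d : XX 𝕜))
  rw [add_sub_cancel] at h2
  rw [dist_eq_norm] at hd
  have h4 : theta k (d : XX 𝕜) = avg k (fun n => ‖d.y k (n + 0) - gk k d.v‖) := by
    simp only [theta, ev_iterate_coe, PP_coe, add_zero]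
  linarith

lemma eventually_ev_le (x : XX 𝕜) {ε : ℝ} (hε : 0 < ε) : ∀ᶠ k in atTop, ‖ev k x‖ ≤ ε := by
  obtain ⟨d, hd⟩ := Completion.denseRange_coe.exists_dist_lt x (show 0 < ε / 2 by positivity)
  have h1 := (d.lim₁ 0).norm.eventually (ge_mem_nhds (show ‖(0 : 𝕜)‖ < ε / 2 by simpa using hε))
  filter_upwards [h1] with k hk
  have h2 : ev k x = ev k (d : XX 𝕜) + ev k (x - (d : XX 𝕜)) := by rw [← map_add, add_sub_cancel]
  have h3 := norm_ev_le k (x - (d : XX 𝕜))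
  rw [dist_eq_norm] at hd
  rw [h2, ev_coe]
  linarith [norm_add_le (d.y k 0) (ev k (x - (d : XX 𝕜)))]

/-- a set which is sparse in almost all blocks has upper density zero. -/
lemma upperDensity_nonpos_of_blocks {A : Set ℕ}
    (h : ∀ ε : ℝ, 0 < ε → ∀ᶠ k in atTop, avg k (A.indicator 1) ≤ ε) : upperDensity A ≤ 0 := by
  classical
  refine upperDensity_nonpos_of fun ε hε => ?_
  obtain ⟨k₀, hk₀⟩ := eventually_atTop.1 (h (ε / 8) (by positivity))
  have hcnt : ∀ M, (cnt A 0 M : ℝ) = ∑ n ∈ Finset.range M, A.indicator (1 : ℕ → ℝ) n := by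
    intro M
    simp only [cnt, zero_add, Set.indicator_apply, Pi.one_apply, Finset.sum_boole]
  have key : ∀ k, k₀ ≤ k → (cnt A 0 (4 ^ k) : ℝ) ≤ 4 ^ k₀ + ε / 8 * 4 ^ k := by
    intro k hk
    induction k, hk using Nat.le_induction with
    | base =>
      have : (cnt A 0 (4 ^ k₀) : ℝ) ≤ 4 ^ k₀ := by exact_mod_cast cnt_le A 0 (4 ^ k₀)
      have h2 : 0 ≤ ε / 8 * 4 ^ k₀ := by positivity
      linarith
    | succ k hk ih =>
      have h1 := hk₀ k hk
      unfold avg at h1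
      rw [div_le_iff₀ (by positivity)] at h1
      rw [hcnt] at ih ⊢
      rw [← Finset.sum_range_add_sum_Ico _ (show 4 ^ k ≤ 4 ^ (k + 1) from
        Nat.pow_le_pow_right (by norm_num) (by omega)), pow_succ (4 : ℝ)]
      linarith
  obtain ⟨N₀, hN₀⟩ := exists_nat_ge (2 * 4 ^ k₀ / ε)
  filter_upwards [eventually_ge_atTop (4 ^ k₀), eventually_ge_atTop N₀] with N hN hN'
  have hN0 : N ≠ 0 := by
    have : 0 < 4 ^ k₀ := by positivity
    omega
  have h1 : k₀ ≤ Nat.log 4 N := (Nat.le_log_iff_pow_le (by norm_num) hN0).2 hN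
  have h2 : N < 4 ^ (Nat.log 4 N + 1) := Nat.lt_pow_succ_log_self (by norm_num) N
  have h3 : 4 ^ Nat.log 4 N ≤ N := Nat.pow_log_le_self 4 hN0
  have h4 : cnt A 0 (N + 1) ≤ cnt A 0 (4 ^ (Nat.log 4 N + 1)) := by
    unfold cnt
    exact Finset.card_le_card (Finset.filter_subset_filter _ (Finset.range_subset_range.2 h2))
  have h5 := key (Nat.log 4 N + 1) (by omega)
  have h6 : (cnt A 0 (N + 1) : ℝ) ≤ cnt A 0 (4 ^ (Nat.log 4 N + 1)) := by exact_mod_cast h4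
  have h7 : ((4 : ℝ) ^ Nat.log 4 N) ≤ N := by exact_mod_cast h3
  have h8 : (N₀ : ℝ) ≤ N := by exact_mod_cast hN'
  rw [div_le_iff₀ hε] at hN₀
  rw [pow_succ (4 : ℝ)] at h5
  nlinarith

/-- two vectors with independent projections have few common return times. -/
lemma upperDensity_common {x y : XX 𝕜} (hx : ‖PP x - (1, 0)‖ < 1 / 8)
    (hy : ‖PP y - (0, 1)‖ < 1 / 8) {A : Set ℕ}
    (hA : ∀ n ∈ A, ‖(TT 𝕜 : XX 𝕜 → XX 𝕜)^[n] x - x‖ < 1 / 4 ∧
      ‖(TT 𝕜 : XX 𝕜 → XX 𝕜)^[n] y - y‖ < 1 / 4) : upperDensity A ≤ 0 := by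
  refine upperDensity_nonpos_of_blocks fun ε hε => ?_
  have aux : ∀ (z : XX 𝕜) (e : 𝕜 × 𝕜) (k n : ℕ), ‖PP z - e‖ < 1 / 8 → 1 ≤ ‖gk k e‖ →
      ‖ev k z‖ ≤ 1 / 4 → ‖(TT 𝕜 : XX 𝕜 → XX 𝕜)^[n] z - z‖ < 1 / 4 →
      1 ≤ 4 * ‖ev k ((TT 𝕜 : XX 𝕜 → XX 𝕜)^[n] z) - gk k (PP z)‖ := by
    intro z e k n h1 h2 h3 h4
    have h5 := norm_ev_le k ((TT 𝕜 : XX 𝕜 → XX 𝕜)^[n] z - z)
    have h6 := norm_gk_le k (PP z - e)
    rw [map_sub] at h5 h6
    have h7 : gk k e = -(ev k ((TT 𝕜 : XX 𝕜 → XX 𝕜)^[n] z) - gk k (PP z)) +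
        (ev k ((TT 𝕜 : XX 𝕜 → XX 𝕜)^[n] z) - ev k z) + ev k z - (gk k (PP z) - gk k e) := by
      ring
    have h8 : ‖gk k e‖ ≤ ‖ev k ((TT 𝕜 : XX 𝕜 → XX 𝕜)^[n] z) - gk k (PP z)‖ +
        ‖ev k ((TT 𝕜 : XX 𝕜 → XX 𝕜)^[n] z) - ev k z‖ + ‖ev k z‖ + ‖gk k (PP z) - gk k e‖ := by
      conv_lhs => rw [h7]
      refine (norm_sub_le _ _).trans (add_le_add_left ((norm_add_le _ _).trans
        (add_le_add_left ((norm_add_le _ _).trans (by rw [norm_neg])) _)) _)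
    linarith
  filter_upwards [eventually_theta_le x (show 0 < ε / 8 by positivity),
    eventually_theta_le y (show 0 < ε / 8 by positivity),
    eventually_ev_le x (show (0 : ℝ) < 1 / 4 by positivity),
    eventually_ev_le y (show (0 : ℝ) < 1 / 4 by positivity)] with k h1 h2 h3 h4
  have h5 : avg k (A.indicator 1) ≤ 4 * theta k x + 4 * theta k y := by
    unfold theta
    rw [← avg_mul, ← avg_mul, ← avg_add]
    refine avg_mono fun n _ _ => ?_
    have p1 := norm_nonneg (ev k ((TT 𝕜 : XX 𝕜 → XX 𝕜)^[n] x) - gk k (PP x))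
    have p2 := norm_nonneg (ev k ((TT 𝕜 : XX 𝕜 → XX 𝕜)^[n] y) - gk k (PP y))
    by_cases hn : n ∈ A
    · rw [Set.indicator_of_mem hn, Pi.one_apply]
      rcases one_le_gl (dirs_ne 𝕜 (tag k).1) with h | h
      · have := aux x _ k n hx h h3 (hA n hn).1
        linarith
      · have := aux y _ k n hy h h4 (hA n hn).2
        linarith
    · rw [Set.indicator_of_notMem hn]
      linarith
  linarith

/-- a section of the projection. -/
noncomputable def sect (v : 𝕜 × 𝕜) : D 𝕜 :=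
  D.mk v (fun k n => if n ≤ k then 0 else gk k v)
    ⟨2 * ‖v‖, fun k n => by
      split_ifs
      · simp
      · exact norm_gk_le k v⟩
    (fun j => tendsto_const_nhds.congr' (by
      filter_upwards [eventually_ge_atTop j] with k hk
      simp [hk]))
    (fun j => tendsto_const_nhds.congr' (by
      refine Eventually.of_forall fun k => ?_
      refine le_antisymm (avg_nonneg fun _ => norm_nonneg _) (avg_le fun n hn _ => ?_)
      have : k < 4 ^ k := Nat.lt_pow_self (by norm_num)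
      rw [if_neg (by omega)]
      simp))

theorem not_uFrequentlyRecurrent_directSum {n : ℕ} (hn : 2 ≤ n) :
    ¬ UFrequentlyRecurrent (directSum n (TT 𝕜 : XX 𝕜 → XX 𝕜)) := by
  intro h
  let i₀ : Fin n := ⟨0, by omega⟩
  let i₁ : Fin n := ⟨1, by omega⟩
  have hne : i₁ ≠ i₀ := by simp [i₀, i₁]
  let O : Set (Fin n → XX 𝕜) :=
    {ξ | ‖PP (ξ i₀) - (1, 0)‖ < 1 / 8} ∩ {ξ | ‖PP (ξ i₁) - (0, 1)‖ < 1 / 8}
  have hO : IsOpen O :=
    (isOpen_lt (by fun_prop) continuous_const).inter (isOpen_lt (by fun_prop) continuous_const)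
  have hOne : O.Nonempty := by
    classical
    refine ⟨fun i => if i = i₀ then (sect (1, 0) : D 𝕜) else (sect (0, 1) : D 𝕜), ?_, ?_⟩
    · have : (sect ((1, 0) : 𝕜 × 𝕜)).v = (1, 0) := rfl
      simp [PP_coe, this]
    · have : (sect ((0, 1) : 𝕜 × 𝕜)).v = (0, 1) := rfl
      simp [hne, PP_coe, this]
  obtain ⟨ξ, hξO, hξ⟩ := h.inter_open_nonempty O hO hOne
  have hU : ({η | ‖η i₀ - ξ i₀‖ < 1 / 4} ∩ {η | ‖η i₁ - ξ i₁‖ < 1 / 4} : Set (Fin n → XX 𝕜)) ∈
      𝓝 ξ := by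
    refine IsOpen.mem_nhds ((isOpen_lt (by fun_prop) continuous_const).inter
      (isOpen_lt (by fun_prop) continuous_const)) ⟨by simp, by simp⟩
  refine absurd (hξ _ hU) (not_lt.2 (upperDensity_common hξO.1 hξO.2 fun m hm => ?_))
  have e : ∀ i, (directSum n (TT 𝕜 : XX 𝕜 → XX 𝕜))^[m] ξ i =
      (TT 𝕜 : XX 𝕜 → XX 𝕜)^[m] (ξ i) := fun i =>
    Function.Semiconj.iterate_right (f := fun η : Fin n → XX 𝕜 => η i)
      (ga := directSum n (TT 𝕜 : XX 𝕜 → XX 𝕜)) (gb := TT 𝕜) (fun _ => rfl) m ξ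
  simpa only [returnSet, Set.mem_ofPred_eq, Set.mem_inter_iff, e] using hm

end Pool.Agent.P.MP_cd1425_an
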