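import Pool.Agent.P.MP_cd1425_an.Cex2

/-!
The counterexample: combinatorics of the frequently recurrent vectors.
-/

set_option autoImplicit false

open Filter Topology UniformSpace

namespace Pool.Agent.P.MP_cd1425_an

/-- the level attached to the position `m`. -/
noncomputable def lev (m : ℕ) : ℕ := (tag (Nat.log 4 m)).2

/-- `m` lies in an active zone. -/
def InBlock (i K m : ℕ) : Prop :=
  (tag (Nat.log 4 m)).1 = i ∧ K ≤ lev m ∧ lev m + 2 ≤ Nat.log 4 m ∧
    2 * 4 ^ Nat.log 4 m ≤ m ∧ m < 3 * 4 ^ Nat.log 4 m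

lemma InBlock.pow_le {i K m : ℕ} (h : InBlock i K m) : 2 * 4 ^ (lev m + 2) ≤ m := by
  have := Nat.pow_le_pow_right (show 0 < 4 by norm_num) h.2.2.1
  have := h.2.2.2.1
  omega

open Classical in
/-- reduction of a position by undoing the copies. -/
noncomputable def red (i K k : ℕ) (m : ℕ) : ℕ :=
  if h : InBlock i K m ∧ k ≤ lev m then red i K k (m % 4 ^ (lev m + 2)) else m
termination_by m
decreasing_by
  have h1 := h.1.pow_le
  have h2 := Nat.mod_lt m (show 0 < 4 ^ (lev m + 2) by positivity)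
  omega

lemma red_of_not {i K k m : ℕ} (h : ¬ (InBlock i K m ∧ k ≤ lev m)) : red i K k m = m := by
  rw [red, dif_neg h]

lemma red_of {i K k m : ℕ} (h : InBlock i K m) (hk : k ≤ lev m) :
    red i K k m = red i K k (m % 4 ^ (lev m + 2)) := by
  rw [red, dif_pos ⟨h, hk⟩]

lemma log_eq_of {k m : ℕ} (h1 : 4 ^ k ≤ m) (h2 : m < 4 ^ (k + 1)) : Nat.log 4 m = k :=
  Nat.log_eq_of_pow_le_of_lt_pow h1 h2

lemma not_inBlock_of_ne {i K k m : ℕ} (hk : (tag k).1 ≠ i) (h1 : 4 ^ k ≤ m)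
    (h2 : m < 2 * 4 ^ (k + 1)) : ¬ InBlock i K m := by
  intro h
  rcases lt_or_ge m (4 ^ (k + 1)) with h3 | h3
  · have := h.1
    rw [log_eq_of h1 h3] at this
    exact hk this
  · have h4 := h.2.2.2.1
    rw [log_eq_of h3 (by rw [pow_succ 4 (k + 1)]; omega)] at h4
    omega

/-- the return times of level `l`. -/
def retA (i K l : ℕ) : Set ℕ := {n | InBlock i K n ∧ lev n = l ∧ 4 ^ (l + 2) ∣ n}

lemma retA.add {i K l n r : ℕ} (hn : n ∈ retA i K l) (hr : r < 4 ^ (l + 2)) :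
    InBlock i K (n + r) ∧ lev (n + r) = l ∧ (n + r) % 4 ^ (l + 2) = r := by
  obtain ⟨⟨h1, h2, h3, h4, h5⟩, h6, h7⟩ := hn
  have hd : 4 ^ (l + 2) ∣ 3 * 4 ^ Nat.log 4 n :=
    Dvd.dvd.mul_left (pow_dvd_pow 4 (h6 ▸ h3)) 3
  have h8 : n + 4 ^ (l + 2) ≤ 3 * 4 ^ Nat.log 4 n := by
    have := Nat.le_of_dvd (by omega) ((Nat.dvd_sub hd h7))
    omega
  have hlog : Nat.log 4 (n + r) = Nat.log 4 n :=
    log_eq_of (by omega) (by rw [pow_succ]; omega)
  have hlev : lev (n + r) = lev n := by unfold lev; rw [hlog]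
  refine ⟨⟨by rw [hlog]; exact h1, by rw [hlev]; exact h2, by rw [hlev, hlog]; exact h3,
    by rw [hlog]; omega, by rw [hlog]; omega⟩, by rw [hlev, h6], ?_⟩
  obtain ⟨c, rfl⟩ := h7
  rw [Nat.mul_add_mod, Nat.mod_eq_of_lt hr]

lemma lowerDensity_retA {i K l : ℕ} (hl : K ≤ l) {A : Set ℕ} (hA : retA i K l ⊆ A) :
    0 < lowerDensity A := by
  classical
  obtain ⟨G, hG⟩ := tag_spec (i, l)
  refine lowerDensity_pos_of (δ := 1 / 4 ^ (G + l + 4)) (by positivity) ?_
  filter_upwards [eventually_ge_atTop (4 ^ (G + l + 3))] with N hN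
  have hN0 : N ≠ 0 := by
    have : 0 < 4 ^ (G + l + 3) := by positivity
    omega
  have h1 : G + l + 3 ≤ Nat.log 4 N := (Nat.le_log_iff_pow_le (by norm_num) hN0).2 hN
  have h2 : N < 4 ^ (Nat.log 4 N + 1) := Nat.lt_pow_succ_log_self (by norm_num) N
  have h3 : 4 ^ Nat.log 4 N ≤ N := Nat.pow_log_le_self 4 hN0
  obtain ⟨b, hb⟩ : ∃ b, Nat.log 4 N = b + (G + l + 3) := ⟨Nat.log 4 N - (G + l + 3), by omega⟩
  obtain ⟨k, hk1, hk2, hk3⟩ := hG (b + l + 2)
  obtain ⟨c, rfl⟩ : ∃ c, k = c + (l + 2) := ⟨k - (l + 2), by omega⟩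
  have h4 : 4 ^ (c + (l + 2) + 1) ≤ 4 ^ Nat.log 4 N :=
    Nat.pow_le_pow_right (by norm_num) (by omega)
  have hp : 0 < 4 ^ (l + 2) := by positivity
  have h5 : 4 ^ c ≤ cnt A 0 (N + 1) := by
    unfold cnt
    calc 4 ^ c = (Finset.range (4 ^ c)).card := by simp
      _ ≤ _ := by
        refine Finset.card_le_card_of_injOn
          (fun s => 2 * 4 ^ (c + (l + 2)) + s * 4 ^ (l + 2)) ?_ ?_
        · intro s hs
          have hs' : s < 4 ^ c := by simpa using hs
          have h6 : s * 4 ^ (l + 2) < 4 ^ (c + (l + 2)) := by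
            rw [pow_add 4 c]
            exact Nat.mul_lt_mul_of_pos_right hs' hp
          rw [pow_succ] at h4
          have hlog : Nat.log 4 (2 * 4 ^ (c + (l + 2)) + s * 4 ^ (l + 2)) = c + (l + 2) :=
            log_eq_of (by omega) (by rw [pow_succ 4 (c + (l + 2))]; omega)
          have hlev : lev (2 * 4 ^ (c + (l + 2)) + s * 4 ^ (l + 2)) = l := by
            unfold lev; rw [hlog, hk3]
          simp only [Finset.coe_filter, Finset.mem_range, Set.mem_ofPred_eq, zero_add]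
          refine ⟨by omega, hA ⟨⟨by rw [hlog, hk3], by rw [hlev]; exact hl,
            by rw [hlev, hlog]; omega, by rw [hlog]; omega, by rw [hlog]; omega⟩, hlev, ?_⟩⟩
          exact dvd_add (Dvd.dvd.mul_left (pow_dvd_pow 4 (by omega)) 2) (dvd_mul_left _ _)
        · intro s _ t _ hst
          simp only [add_right_inj] at hst
          exact Nat.eq_of_mul_eq_mul_right hp hst
  have h6 : 4 ^ b ≤ 4 ^ c := Nat.pow_le_pow_right (by norm_num) (by omega)
  have h7 : N + 1 ≤ 4 ^ b * 4 ^ (G + l + 4) := by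
    rw [← pow_add, show b + (G + l + 4) = Nat.log 4 N + 1 by omega]
    omega
  have h8 : (N : ℝ) + 1 ≤ (cnt A 0 (N + 1) : ℝ) * 4 ^ (G + l + 4) := by
    have : N + 1 ≤ cnt A 0 (N + 1) * 4 ^ (G + l + 4) :=
      h7.trans (Nat.mul_le_mul_right _ (h6.trans h5))
    exact_mod_cast this
  rw [div_mul_eq_mul_div, one_mul, div_le_iff₀ (by positivity)]
  exact h8

lemma card_mod_le (c s L p l : ℕ) :
    ((Finset.Ico s (s + L)).filter (fun n => (c + n) % p ≤ l)).card ≤ (l + 1) * (L / p + 1) := by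
  calc _ ≤ (Finset.range (l + 1) ×ˢ Finset.range (L / p + 1)).card := by
        refine Finset.card_le_card_of_injOn (fun n => ((c + n) % p, (n - s) / p)) ?_ ?_
        · intro n hn
          simp only [Finset.coe_filter, Finset.mem_Ico, Set.mem_ofPred_eq] at hn
          simp only [Finset.coe_product, Finset.coe_range, Set.mem_prod, Set.mem_Iio]
          exact ⟨by omega, Nat.lt_succ_of_le (Nat.div_le_div_right (by omega))⟩
        · intro a ha b hb hab
          simp only [Finset.coe_filter, Finset.mem_Ico, Set.mem_ofPred_eq] at ha hb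
          simp only [Prod.mk.injEq] at hab
          obtain ⟨h1, h2⟩ := hab
          have h3 : a - s ≡ b - s [MOD p] := by
            have h4 : c + s + (a - s) ≡ c + s + (b - s) [MOD p] := by
              rw [show c + s + (a - s) = c + a by omega, show c + s + (b - s) = c + b by omega]
              exact h1
            exact Nat.ModEq.add_left_cancel' _ h4
          have h5 := Nat.div_add_mod (a - s) p
          have h6 := Nat.div_add_mod (b - s) p
          unfold Nat.ModEq at h3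
          rw [h2, h3] at h5
          omega
    _ = _ := by simp

lemma avg_mod_le (c k l : ℕ) (hk : l < k) :
    avg k (fun n => if (c + n) % 4 ^ (l + 2) ≤ l then 1 else 0) ≤ (1 / 2) ^ l := by
  unfold avg
  rw [Finset.sum_boole, div_le_iff₀ (by positivity)]
  have h1 := card_mod_le c (4 ^ k) (3 * 4 ^ k) (4 ^ (l + 2)) l
  rw [show 4 ^ k + 3 * 4 ^ k = 4 ^ (k + 1) by rw [pow_succ]; omega] at h1
  obtain ⟨e, rfl⟩ : ∃ e, k = e + (l + 1) := ⟨k - (l + 1), by omega⟩
  have h2 : 3 * 4 ^ (e + (l + 1)) / 4 ^ (l + 2) ≤ 4 ^ e := by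
    refine Nat.div_le_of_le_mul ?_
    rw [pow_add 4 e, pow_succ 4 (l + 1)]
    nlinarith [Nat.zero_le (4 ^ e * 4 ^ (l + 1))]
  have h3 : l + 1 ≤ 2 ^ l := Nat.lt_two_pow_self
  have h4 : 1 ≤ 4 ^ e := Nat.one_le_pow _ _ (by norm_num)
  have h5 : (l + 1) * (3 * 4 ^ (e + (l + 1)) / 4 ^ (l + 2) + 1) ≤ 2 ^ l * (2 * 4 ^ e) :=
    Nat.mul_le_mul h3 (by omega)
  have h6 : ((((Finset.Ico (4 ^ (e + (l + 1))) (4 ^ (e + (l + 1) + 1))).filter
      (fun n => (c + n) % 4 ^ (l + 2) ≤ l)).card : ℕ) : ℝ) ≤ 2 ^ l * (2 * 4 ^ e) := by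
    exact_mod_cast h1.trans h5
  refine h6.trans ?_
  have h7 : (4 : ℝ) ^ (e + (l + 1)) = 4 ^ e * (2 ^ l * 2 ^ l) * 4 := by
    rw [← mul_pow]; ring
  have h8 : ((1 : ℝ) / 2) ^ l * 2 ^ l = 1 := by rw [← mul_pow]; norm_num
  have h9 : ((1 : ℝ) / 2) ^ l * (3 * (4 ^ e * (2 ^ l * 2 ^ l) * 4)) = 12 * (2 ^ l * 4 ^ e) := by
    calc _ = (((1 : ℝ) / 2) ^ l * 2 ^ l) * (12 * (2 ^ l * 4 ^ e)) := by ring
      _ = _ := by rw [h8, one_mul]
  rw [h7, h9]
  have : (0 : ℝ) < 2 ^ l * 4 ^ e := by positivity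
  linarith

end Pool.Agent.P.MP_cd1425_an
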