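import Pool.Agent.P.MP_cd1425_an.Cex3

/-!
The counterexample: frequently recurrent vectors are dense.
-/

set_option autoImplicit false

open Filter Topology UniformSpace

namespace Pool.Agent.P.MP_cd1425_an

variable {𝕜 : Type} [RCLike 𝕜]

open Classical in
/-- values at reduced positions. -/
noncomputable def base (d : D 𝕜) (i K k m : ℕ) : 𝕜 :=
  if k ≤ K then d.y k m
  else if m ≤ k ∨ (InBlock i K m ∧ m % 4 ^ (lev m + 2) ≤ lev m) then 0 else gk k (dirs 𝕜 i)

/-- the array of the approximating vector. -/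
noncomputable def yy (d : D 𝕜) (i K k m : ℕ) : 𝕜 := base d i K k (red i K k m)

section
variable {d : D 𝕜} {i K : ℕ}

lemma norm_yy_le {B : ℝ} (hB : ∀ k n, ‖d.y k n‖ ≤ B) (k m : ℕ) :
    ‖yy d i K k m‖ ≤ max B (2 * ‖dirs 𝕜 i‖) := by
  unfold yy base
  split_ifs
  · exact le_max_of_le_left (hB _ _)
  · exact le_max_of_le_right (by simp)
  · exact le_max_of_le_right (norm_gk_le _ _)

lemma yy_cases {k : ℕ} (hk : K < k) (m : ℕ) :
    yy d i K k m = 0 ∨ yy d i K k m = gk k (dirs 𝕜 i) := by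
  unfold yy base
  rw [if_neg (by omega)]
  split_ifs
  · exact Or.inl rfl
  · exact Or.inr rfl

lemma gk_eq_zero {k : ℕ} (h : (tag k).1 = i) : gk k (dirs 𝕜 i) = 0 := by
  unfold gk
  rw [h, gl_self]

lemma yy_of_tag {k : ℕ} (hk : K < k) (h : (tag k).1 = i) (m : ℕ) : yy d i K k m = 0 := by
  rcases yy_cases (d := d) (i := i) hk m with h' | h'
  · exact h'
  · rw [h', gk_eq_zero h]

lemma yy_small {k m : ℕ} (hk : K < k) (hm : m ≤ k) : yy d i K k m = 0 := by
  have : ¬ (InBlock i K m ∧ k ≤ lev m) := by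
    rintro ⟨h1, h2⟩
    have h3 := h1.pow_le
    have h4 : lev m + 2 < 4 ^ (lev m + 2) := Nat.lt_pow_self (by norm_num)
    omega
  unfold yy base
  rw [red_of_not this, if_neg (by omega), if_pos (Or.inl hm)]

lemma yy_of_not_inBlock {k m : ℕ} (hk : K < k) (hm : k < m) (h : ¬ InBlock i K m) :
    yy d i K k m = gk k (dirs 𝕜 i) := by
  unfold yy base
  rw [red_of_not (fun h' => h h'.1), if_neg (by omega), if_neg]
  rintro (h' | h')
  · omega
  · exact h h'.1

lemma yy_block {k m : ℕ} (hk : K < k) (h1 : 4 ^ k ≤ m) (h2 : m < 2 * 4 ^ (k + 1)) :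
    yy d i K k m = gk k (dirs 𝕜 i) := by
  by_cases h : (tag k).1 = i
  · rw [yy_of_tag hk h, gk_eq_zero h]
  · have : k < 4 ^ k := Nat.lt_pow_self (by norm_num)
    exact yy_of_not_inBlock hk (by omega) (not_inBlock_of_ne h h1 h2)

lemma yy_low {k m : ℕ} (hk : k ≤ K) (hm : m < 2 * 4 ^ (K + 2)) : yy d i K k m = d.y k m := by
  have : ¬ InBlock i K m := by
    intro h
    have h1 := h.pow_le
    have h2 : 4 ^ (K + 2) ≤ 4 ^ (lev m + 2) :=
      Nat.pow_le_pow_right (by norm_num) (by have := h.2.1; omega)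
    omega
  unfold yy base
  rw [red_of_not (fun h' => this h'.1), if_pos hk]

lemma yy_copy {l n r k : ℕ} (hn : n ∈ retA i K l) (hr : r < 4 ^ (l + 2)) (hk : k ≤ l) :
    yy d i K k (n + r) = yy d i K k r := by
  obtain ⟨h1, h2, h3⟩ := retA.add hn hr
  unfold yy
  rw [red_of h1 (by omega), h2, h3]

lemma yy_zero_ret {l n j k : ℕ} (hn : n ∈ retA i K l) (hj : j ≤ l) (hk : l < k) :
    yy d i K k (n + j) = 0 := by
  have h0 : l + 2 < 4 ^ (l + 2) := Nat.lt_pow_self (by norm_num)
  obtain ⟨h1, h2, h3⟩ := retA.add (r := j) hn (by omega)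
  have h4 := h1.2.1
  unfold yy base
  rw [red_of_not (by rintro ⟨-, h⟩; omega), if_neg (by omega), if_pos]
  exact Or.inr ⟨h1, by rw [h2, h3]; exact hj⟩

lemma yy_ret_block {l n j k n' : ℕ} (hn : n ∈ retA i K l) (hj : j ≤ l) (hk : l < k)
    (h1 : 4 ^ k ≤ n') (h2 : n' < 4 ^ (k + 1)) (h : ¬ (n + j + n') % 4 ^ (l + 2) ≤ l) :
    yy d i K k (n + j + n') = gk k (dirs 𝕜 i) := by
  obtain ⟨⟨a1, a2, a3, a4, a5⟩, a6, -⟩ := hn
  have hKk : K < k := by omega
  by_cases ht : (tag k).1 = i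
  · rw [yy_of_tag hKk ht, gk_eq_zero ht]
  have hk4 : k < 4 ^ k := Nat.lt_pow_self (by norm_num)
  have hl4 : l + 2 < 4 ^ (l + 2) := Nat.lt_pow_self (by norm_num)
  have hl5 : 4 ^ (l + 2) ≤ 4 ^ Nat.log 4 n := Nat.pow_le_pow_right (by norm_num) (by omega)
  rcases lt_trichotomy k (Nat.log 4 n) with hlt | heq | hgt
  · have b1 : 4 ^ (k + 1) ≤ 4 ^ Nat.log 4 n := Nat.pow_le_pow_right (by norm_num) hlt
    by_cases hb : InBlock i K (n + j + n')
    · have hlog : Nat.log 4 (n + j + n') = Nat.log 4 n := by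
        rcases lt_or_ge (n + j + n') (4 ^ (Nat.log 4 n + 1)) with c | c
        · exact log_eq_of (by omega) c
        · have c1 := hb.2.2.2.1
          rw [log_eq_of c (by rw [pow_succ, pow_succ]; omega), pow_succ] at c1
          omega
      have hlev : lev (n + j + n') = l := by
        rw [← a6]; unfold lev; rw [hlog]
      unfold yy base
      rw [red_of_not (by rintro ⟨-, h⟩; omega), if_neg (by omega), if_neg]
      rintro (h' | h')
      · omega
      · rw [hlev] at h'
        exact h h'.2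
    · exact yy_of_not_inBlock hKk (by omega) hb
  · exact absurd (heq ▸ a1) ht
  · have b1 : 4 ^ (Nat.log 4 n + 1) ≤ 4 ^ k := Nat.pow_le_pow_right (by norm_num) hgt
    rw [pow_succ] at b1
    exact yy_block hKk (by omega) (by rw [pow_succ] at h2 ⊢; omega)

end

/-- the approximating vector. -/
noncomputable def appr (d : D 𝕜) (i K : ℕ) : D 𝕜 :=
  D.mk (dirs 𝕜 i) (yy d i K)
    (by obtain ⟨B, hB⟩ := d.bdd; exact ⟨_, norm_yy_le hB⟩)
    (fun j => tendsto_const_nhds.congr' (by
      filter_upwards [eventually_ge_atTop j, eventually_gt_atTop K] with k hk hk'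
      exact (yy_small hk' hk).symm))
    (fun j => tendsto_const_nhds.congr' (by
      filter_upwards [eventually_ge_atTop j, eventually_gt_atTop K] with k hk hk'
      refine le_antisymm (avg_nonneg fun _ => norm_nonneg _) (avg_le fun n h1 h2 => ?_)
      have : k + 1 < 4 ^ (k + 1) := Nat.lt_pow_self (by norm_num)
      rw [yy_block hk' (by omega) (by omega)]
      simp))

lemma appr_v (d : D 𝕜) (i K : ℕ) : (appr d i K).v = dirs 𝕜 i := rfl
lemma appr_y (d : D 𝕜) (i K k m : ℕ) : (appr d i K).y k m = yy d i K k m := rfl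

lemma half_pow_le {j l : ℕ} (h : l ≤ j) : ((1 : ℝ) / 2) ^ j ≤ (1 / 2) ^ l :=
  pow_le_pow_of_le_one (by norm_num) (by norm_num) h

lemma norm_return_le (d : D 𝕜) (i K : ℕ) : ∃ C : ℝ, ∀ l, ∀ n ∈ retA i K l,
    ‖(shiftD : D 𝕜 → D 𝕜)^[n] (appr d i K) - appr d i K‖ ≤ C * (1 / 2) ^ l := by
  obtain ⟨B, hB⟩ := d.bdd
  set C := max B (2 * ‖dirs 𝕜 i‖) with hC
  have hC0 : 0 ≤ C := le_max_of_le_right (by positivity)
  refine ⟨4 * C, fun l n hn => ?_⟩
  have hKl : K ≤ l := by have := hn.1.2.1; rw [hn.2.1] at this; exact this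
  have hy : ∀ k m, ((shiftD : D 𝕜 → D 𝕜)^[n] (appr d i K) - appr d i K).y k m =
      yy d i K k (n + m) - yy d i K k m := fun k m => by
    rw [D.y_sub, shiftD_iterate_y, add_comm m n, appr_y, appr_y]
  rw [D.norm_def]
  refine nrm_le ?_ fun k j => ?_
  · rw [D.v_sub, shiftD_iterate_v, sub_self, norm_zero]
    positivity
  rcases lt_or_ge l j with hj | hj
  · refine (term_le_of_bound (B := 2 * C) (fun k m => ?_) k j).trans ?_
    · rw [hy]
      linarith [norm_sub_le (yy d i K k (n + m)) (yy d i K k m),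
        norm_yy_le (i := i) (K := K) hB k (n + m), norm_yy_le (i := i) (K := K) hB k m]
    · have := half_pow_le hj.le
      nlinarith
  have hl4 : l + 1 < 4 ^ (l + 1) := Nat.lt_pow_self (by norm_num)
  have hterm : ‖yy d i K k (n + j) - yy d i K k j‖ +
      avg k (fun m => ‖yy d i K k (n + (m + j)) - yy d i K k (m + j)‖) ≤ C * (1 / 2) ^ l := by
    rcases le_or_gt k l with hk | hk
    · have b1 : 4 ^ (k + 1) ≤ 4 ^ (l + 1) := Nat.pow_le_pow_right (by norm_num) (by omega)
      rw [yy_copy hn (by rw [pow_succ]; omega) hk, sub_self, norm_zero, zero_add]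
      refine avg_le fun m _ h2 => ?_
      rw [yy_copy hn (by rw [pow_succ 4 (l + 1)]; omega) hk, sub_self, norm_zero]
      positivity
    · rw [yy_zero_ret hn hj hk, yy_small (by omega) (by omega), sub_self, norm_zero, zero_add]
      refine le_trans (avg_mono (g := fun m => C * if (n + j + m) % 4 ^ (l + 2) ≤ l then 1 else 0)
        fun m h1 h2 => ?_) ?_
      · have b1 : k + 1 < 4 ^ (k + 1) := Nat.lt_pow_self (by norm_num)
        rw [yy_block (m := m + j) (by omega) (by omega) (by omega),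
          show n + (m + j) = n + j + m by ring]
        split_ifs with h
        · rcases yy_cases (d := d) (i := i) (show K < k by omega) (n + j + m) with h' | h'
          · rw [h', zero_sub, norm_neg, mul_one]
            exact le_max_of_le_right (norm_gk_le _ _)
          · rw [h', sub_self, norm_zero]; linarith
        · rw [yy_ret_block hn hj hk h1 h2 h, sub_self, norm_zero, mul_zero]
      · rw [avg_mul]
        exact mul_le_mul_of_nonneg_left (avg_mod_le _ _ _ hk) hC0
  unfold term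
  simp only [hy]
  have h1 : ((1 : ℝ) / 2) ^ j ≤ 1 := pow_le_one₀ (by norm_num) (by norm_num)
  have h2 : 0 ≤ C * (1 / 2) ^ l := by positivity
  have h3 : 0 ≤ ‖yy d i K k (n + j) - yy d i K k j‖ +
      avg k (fun m => ‖yy d i K k (n + (m + j)) - yy d i K k (m + j)‖) :=
    add_nonneg (norm_nonneg _) (avg_nonneg fun _ => norm_nonneg _)
  nlinarith

lemma appr_mem_rec (d : D 𝕜) (i K : ℕ) : ((appr d i K : D 𝕜) : XX 𝕜) ∈
    recVectors (fun A => 0 < lowerDensity A) (TT 𝕜 : XX 𝕜 → XX 𝕜) := by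
  intro U hU
  obtain ⟨ε, hε, hball⟩ := Metric.mem_nhds_iff.1 hU
  obtain ⟨C, hC⟩ := norm_return_le d i K
  have h1 : Tendsto (fun l : ℕ => C * (1 / 2 : ℝ) ^ l) atTop (𝓝 (C * 0)) :=
    (tendsto_pow_atTop_nhds_zero_of_lt_one (by norm_num) (by norm_num)).const_mul C
  rw [mul_zero] at h1
  obtain ⟨l, hl, hl'⟩ := ((h1.eventually (gt_mem_nhds hε)).and (eventually_ge_atTop K)).exists
  refine lowerDensity_retA (i := i) hl' fun n hn => hball ?_
  rw [Metric.mem_ball, TT_iterate_coe, Completion.dist_eq, dist_eq_norm]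
  exact (hC l n hn).trans_lt hl

lemma exists_appr_close (d : D 𝕜) {ε : ℝ} (hε : 0 < ε) :
    ∃ i K, ‖appr d i K - d‖ ≤ ε := by
  obtain ⟨B, hB⟩ := d.bdd
  have hB0 : 0 ≤ B := (norm_nonneg _).trans (hB 0 0)
  obtain ⟨i, hi⟩ := (dirs_dense 𝕜).exists_dist_lt d.v (show 0 < ε / 4 by positivity)
  rw [dist_comm, dist_eq_norm] at hi
  set C := max B (2 * ‖dirs 𝕜 i‖) with hC
  have hC0 : 0 ≤ C := le_max_of_le_right (by positivity)
  have h1 : Tendsto (fun l : ℕ => (1 / 2 : ℝ) ^ l * (2 * (C + B))) atTop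
      (𝓝 (0 * (2 * (C + B)))) :=
    (tendsto_pow_atTop_nhds_zero_of_lt_one (by norm_num) (by norm_num)).mul_const _
  rw [zero_mul] at h1
  obtain ⟨J, hJ⟩ := (h1.eventually (ge_mem_nhds hε)).exists
  have h2 : ∀ᶠ k in atTop, ∀ j ∈ Finset.range (J + 1), ‖d.y k j‖ ≤ ε / 4 ∧
      avg k (fun n => ‖d.y k (n + j) - gk k d.v‖) ≤ ε / 4 := by
    refine (Filter.eventually_all_finset _).2 fun j _ => Eventually.and ?_ ?_
    · exact (d.lim₁ j).norm.eventually (ge_mem_nhds (show ‖(0 : 𝕜)‖ < ε / 4 by simpa using hε))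
    · exact (d.lim₂ j).eventually (ge_mem_nhds (show (0 : ℝ) < ε / 4 by positivity))
  obtain ⟨K₀, hK₀⟩ := eventually_atTop.1 h2
  refine ⟨i, max K₀ J, ?_⟩
  set K := max K₀ J with hK
  have hKJ : J ≤ K := le_max_right _ _
  have hKK : K₀ ≤ K := le_max_left _ _
  rw [D.norm_def]
  refine nrm_le ?_ fun k j => ?_
  · rw [D.v_sub, appr_v]; linarith
  rcases lt_or_ge J j with hj | hj
  · refine (term_le_of_bound (B := C + B) (fun k m => ?_) k j).trans ?_
    · rw [D.y_sub, appr_y]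
      linarith [norm_sub_le (yy d i K k m) (d.y k m), norm_yy_le (i := i) (K := K) hB k m, hB k m]
    · refine le_trans (mul_le_mul_of_nonneg_right (half_pow_le hj.le) (by positivity)) hJ
  have hterm : ‖yy d i K k j - d.y k j‖ +
      avg k (fun m => ‖yy d i K k (m + j) - d.y k (m + j)‖) ≤ ε := by
    rcases le_or_gt k K with hk | hk
    · have b1 : 4 ^ (k + 1) ≤ 4 ^ (K + 2) := Nat.pow_le_pow_right (by norm_num) (by omega)
      have b2 : K + 2 < 4 ^ (K + 2) := Nat.lt_pow_self (by norm_num)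
      rw [yy_low hk (by omega), sub_self, norm_zero, zero_add]
      refine avg_le fun m _ h2 => ?_
      rw [yy_low hk (by omega), sub_self, norm_zero]
      exact hε.le
    · obtain ⟨c1, c2⟩ := hK₀ k (by omega) j (by simpa using Nat.lt_succ_of_le hj)
      rw [yy_small hk (by omega), zero_sub, norm_neg]
      have c3 : avg k (fun m => ‖yy d i K k (m + j) - d.y k (m + j)‖) ≤
          avg k (fun m => ‖d.y k (m + j) - gk k d.v‖ + ε / 2) := by
        refine avg_mono fun m h1 h2 => ?_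
        have b1 : k + 1 < 4 ^ (k + 1) := Nat.lt_pow_self (by norm_num)
        rw [yy_block (m := m + j) hk (by omega) (by omega)]
        have e1 := norm_gk_le k (dirs 𝕜 i - d.v)
        rw [map_sub] at e1
        have e2 := norm_sub_le_norm_sub_add_norm_sub (gk k (dirs 𝕜 i)) (gk k d.v) (d.y k (m + j))
        rw [norm_sub_rev (gk k d.v)] at e2
        linarith
      rw [avg_add, avg_const] at c3
      linarith
  unfold term
  simp only [D.y_sub, appr_y]
  have h1 : ((1 : ℝ) / 2) ^ j ≤ 1 := pow_le_one₀ (by norm_num) (by norm_num)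
  have h3 : 0 ≤ ‖yy d i K k j - d.y k j‖ +
      avg k (fun m => ‖yy d i K k (m + j) - d.y k (m + j)‖) :=
    add_nonneg (norm_nonneg _) (avg_nonneg fun _ => norm_nonneg _)
  nlinarith

theorem frequentlyRecurrent_TT : FrequentlyRecurrent (TT 𝕜 : XX 𝕜 → XX 𝕜) := by
  refine Metric.dense_iff.2 fun x ε hε => ?_
  obtain ⟨d, hd⟩ := Completion.denseRange_coe.exists_dist_lt x (half_pos hε)
  obtain ⟨i, K, h⟩ := exists_appr_close d (half_pos hε)
  refine ⟨_, ?_, appr_mem_rec d i K⟩
  have h1 : dist ((appr d i K : D 𝕜) : XX 𝕜) (d : XX 𝕜) ≤ ε / 2 := by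
    rw [Completion.dist_eq, dist_eq_norm]; exact h
  have h2 := dist_triangle ((appr d i K : D 𝕜) : XX 𝕜) (d : XX 𝕜) x
  rw [dist_comm (d : XX 𝕜) x] at h2
  rw [Metric.mem_ball]
  linarith

lemma FrequentlyRecurrent.uFrequentlyRecurrent {X : Type*} [TopologicalSpace X] {T : X → X}
    (h : FrequentlyRecurrent T) : UFrequentlyRecurrent T :=
  Dense.mono (fun _ hx U hU => (hx U hU).trans_le (lowerDensity_le_upperDensity _)) h

end Pool.Agent.P.MP_cd1425_an
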