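import Mathlib

/-!
Definitions for recurrence notions of operators on Frechet spaces.
-/

set_option autoImplicit false

open Filter Topology

namespace Pool.Agent.P.MP_cd1425_an

/-- The proportion `|A ∩ [m, m+N]| / (N+1)`. -/
noncomputable def windowDensity (A : Set ℕ) (m N : ℕ) : ℝ :=
  ((A ∩ Set.Icc m (m + N)).ncard : ℝ) / ((N : ℝ) + 1)

/-- Lower density: `liminf |A ∩ [0,N]| / (N+1)`. -/
noncomputable def lowerDensity (A : Set ℕ) : ℝ :=
  liminf (fun N : ℕ => windowDensity A 0 N) atTop

/-- Upper density: `limsup |A ∩ [0,N]| / (N+1)`. -/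
noncomputable def upperDensity (A : Set ℕ) : ℝ :=
  limsup (fun N : ℕ => windowDensity A 0 N) atTop

/-- Upper Banach density: the limit in `N` of `sup_m |A ∩ [m,m+N]| / (N+1)`.
The limit always exists, so it is the `limsup`. -/
noncomputable def upperBanachDensity (A : Set ℕ) : ℝ :=
  limsup (fun N : ℕ => ⨆ m : ℕ, windowDensity A m N) atTop

/-- `A` is infinite with bounded gaps. -/
def Syndetic (A : Set ℕ) : Prop :=
  A.Infinite ∧ ∃ L : ℕ, ∀ a ∈ A, ∃ b ∈ A, a < b ∧ b ≤ a + L

/-- The return set `N(x,U) = {n ≥ 0 : T^n x ∈ U}`. -/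
def returnSet {X : Type*} (T : X → X) (x : X) (U : Set X) : Set ℕ :=
  {n : ℕ | T^[n] x ∈ U}

/-- The vectors `x` all of whose return sets `N(x,U)`, `U` a neighbourhood of `x`,
have property `F`. -/
def recVectors {X : Type*} [TopologicalSpace X] (F : Set ℕ → Prop) (T : X → X) : Set X :=
  {x : X | ∀ U ∈ 𝓝 x, F (returnSet T x U)}

/-- Frequently recurrent: the frequently recurrent vectors are dense. -/
def FrequentlyRecurrent {X : Type*} [TopologicalSpace X] (T : X → X) : Prop :=
  Dense (recVectors (fun A => 0 < lowerDensity A) T)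

/-- `U`-frequently recurrent. -/
def UFrequentlyRecurrent {X : Type*} [TopologicalSpace X] (T : X → X) : Prop :=
  Dense (recVectors (fun A => 0 < upperDensity A) T)

/-- Reiteratively recurrent. -/
def ReiterativelyRecurrent {X : Type*} [TopologicalSpace X] (T : X → X) : Prop :=
  Dense (recVectors (fun A => 0 < upperBanachDensity A) T)

/-- Uniformly recurrent. -/
def UniformlyRecurrent {X : Type*} [TopologicalSpace X] (T : X → X) : Prop :=
  Dense (recVectors Syndetic T)

/-- The `n`-fold direct sum `T ⊕ ... ⊕ T`, acting coordinatewise on `X^n`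
(product topology). -/
def directSum {X : Type*} (n : ℕ) (T : X → X) : (Fin n → X) → (Fin n → X) :=
  fun x i => T (x i)

/-- A Frechet space over `𝕜`: a complete Hausdorff topological vector space whose topology
is given by a sequence of seminorms. -/
def IsFrechet (𝕜 X : Type*) [RCLike 𝕜] [AddCommGroup X] [Module 𝕜 X] [UniformSpace X]
    [IsUniformAddGroup X] : Prop :=
  T2Space X ∧ CompleteSpace X ∧ ∃ p : ℕ → Seminorm 𝕜 X, WithSeminorms p

end Pool.Agent.P.MP_cd1425_an
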