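import Pool.Agent.P.MP_cd1425_an.Defs

/-!
Counting lemmas for the densities.
-/

set_option autoImplicit false

open Filter Topology

namespace Pool.Agent.P.MP_cd1425_an

open Classical in
/-- number of `j < N` with `m + j ∈ A`. -/
noncomputable def cnt (A : Set ℕ) (m N : ℕ) : ℕ :=
  ((Finset.range N).filter (fun j => m + j ∈ A)).card

lemma cnt_le (A : Set ℕ) (m N : ℕ) : cnt A m N ≤ N := by
  classical
  unfold cnt
  exact (Finset.card_filter_le _ _).trans (by simp)

lemma cnt_mono {A B : Set ℕ} (h : A ⊆ B) (m N : ℕ) : cnt A m N ≤ cnt B m N := by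
  classical
  unfold cnt
  apply Finset.card_le_card
  intro j hj
  simp only [Finset.mem_filter] at hj ⊢
  exact ⟨hj.1, h hj.2⟩

lemma cnt_union_le (A B : Set ℕ) (m N : ℕ) : cnt (A ∪ B) m N ≤ cnt A m N + cnt B m N := by
  classical
  unfold cnt
  refine le_trans (Finset.card_le_card ?_) (Finset.card_union_le _ _)
  intro j hj
  simp only [Finset.mem_filter, Finset.mem_union, Set.mem_union] at hj ⊢
  tauto

lemma ncard_inter_Icc (A : Set ℕ) (m N : ℕ) :
    (A ∩ Set.Icc m (m + N)).ncard = cnt A m (N + 1) := by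
  classical
  unfold cnt
  have : A ∩ Set.Icc m (m + N) =
      (fun j => m + j) '' ((Finset.range (N + 1)).filter (fun j => m + j ∈ A) : Finset ℕ) := by
    ext a
    simp only [Set.mem_inter_iff, Set.mem_Icc, Finset.coe_filter, Finset.mem_range,
      Set.mem_image, Set.mem_ofPred_eq]
    constructor
    · rintro ⟨ha, h1, h2⟩
      refine ⟨a - m, ⟨by omega, ?_⟩, by omega⟩
      have : m + (a - m) = a := by omega
      rwa [this]
    · rintro ⟨j, ⟨hj, hA⟩, rfl⟩
      exact ⟨hA, by omega, by omega⟩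
  rw [this, Set.ncard_image_of_injective _ (add_right_injective m), Set.ncard_coe_finset]

lemma windowDensity_eq (A : Set ℕ) (m N : ℕ) :
    windowDensity A m N = (cnt A m (N + 1) : ℝ) / ((N : ℝ) + 1) := by
  unfold windowDensity
  rw [ncard_inter_Icc]

lemma windowDensity_nonneg (A : Set ℕ) (m N : ℕ) : 0 ≤ windowDensity A m N := by
  rw [windowDensity_eq]; positivity

lemma windowDensity_le_one (A : Set ℕ) (m N : ℕ) : windowDensity A m N ≤ 1 := by
  rw [windowDensity_eq, div_le_one (by positivity)]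
  exact_mod_cast cnt_le A m (N + 1)

/-- Positive upper Banach density, combinatorial form. -/
def PosBD (A : Set ℕ) : Prop :=
  ∃ δ : ℝ, 0 < δ ∧ ∀ L : ℕ, ∃ N, L ≤ N ∧ ∃ m, δ * N ≤ cnt A m N

lemma bddAbove_window (A : Set ℕ) (N : ℕ) :
    BddAbove (Set.range fun m : ℕ => windowDensity A m N) :=
  ⟨1, by rintro _ ⟨m, rfl⟩; exact windowDensity_le_one A m N⟩

lemma posBD_iff (A : Set ℕ) : 0 < upperBanachDensity A ↔ PosBD A := by
  have hle : ∀ N, (⨆ m : ℕ, windowDensity A m N) ≤ 1 := fun N =>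
    ciSup_le fun m => windowDensity_le_one A m N
  have hge : ∀ N, 0 ≤ (⨆ m : ℕ, windowDensity A m N) := fun N =>
    le_ciSup_of_le (bddAbove_window A N) 0 (windowDensity_nonneg A 0 N)
  have hb : IsBoundedUnder (· ≤ ·) atTop (fun N : ℕ => ⨆ m : ℕ, windowDensity A m N) :=
    isBoundedUnder_of ⟨1, hle⟩
  have hcb : IsCoboundedUnder (· ≤ ·) atTop (fun N : ℕ => ⨆ m : ℕ, windowDensity A m N) :=
    isCoboundedUnder_le_of_le atTop hge
  constructor
  · intro h
    obtain ⟨δ, hδ, hδ'⟩ := exists_between h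
    have hf := frequently_lt_of_lt_limsup hcb hδ'
    refine ⟨δ, hδ, fun L => ?_⟩
    obtain ⟨N, hN, hlt⟩ := (frequently_atTop.1 hf) L
    obtain ⟨m, hm⟩ := exists_lt_of_lt_ciSup hlt
    refine ⟨N + 1, by omega, m, ?_⟩
    rw [windowDensity_eq, lt_div_iff₀ (by positivity)] at hm
    push_cast
    exact hm.le
  · rintro ⟨δ, hδ, h⟩
    refine lt_of_lt_of_le hδ (le_limsup_of_frequently_le ?_ hb)
    refine frequently_atTop.2 fun L => ?_
    obtain ⟨N, hN, m, hm⟩ := h (L + 1)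
    obtain ⟨N', rfl⟩ : ∃ N', N = N' + 1 := ⟨N - 1, by omega⟩
    refine ⟨N', by omega, le_ciSup_of_le (bddAbove_window A N') m ?_⟩
    rw [windowDensity_eq, le_div_iff₀ (by positivity)]
    push_cast at hm
    exact hm

lemma PosBD.mono {A B : Set ℕ} (hA : PosBD A) (h : A ⊆ B) : PosBD B := by
  obtain ⟨δ, hδ, hA⟩ := hA
  refine ⟨δ, hδ, fun L => ?_⟩
  obtain ⟨N, hN, m, hm⟩ := hA L
  exact ⟨N, hN, m, hm.trans (by exact_mod_cast cnt_mono h m N)⟩

lemma PosBD.shift {A B : Set ℕ} (hA : PosBD A) (a : ℕ) (h : ∀ n ∈ A, n + a ∈ B) : PosBD B := by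
  classical
  obtain ⟨δ, hδ, hA⟩ := hA
  refine ⟨δ, hδ, fun L => ?_⟩
  obtain ⟨N, hN, m, hm⟩ := hA L
  refine ⟨N, hN, m + a, hm.trans ?_⟩
  have : cnt A m N ≤ cnt B (m + a) N := by
    unfold cnt
    apply Finset.card_le_card
    intro j hj
    simp only [Finset.mem_filter] at hj ⊢
    refine ⟨hj.1, ?_⟩
    have := h _ hj.2
    rwa [show m + j + a = m + a + j by ring] at this
  exact_mod_cast this

lemma PosBD.union {A B : Set ℕ} (h : PosBD (A ∪ B)) : PosBD A ∨ PosBD B := by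
  by_contra hcon
  rw [not_or] at hcon
  obtain ⟨hA, hB⟩ := hcon
  obtain ⟨δ, hδ, h⟩ := h
  unfold PosBD at hA hB
  push Not at hA hB
  obtain ⟨L₁, h₁⟩ := hA (δ / 2) (by positivity)
  obtain ⟨L₂, h₂⟩ := hB (δ / 2) (by positivity)
  obtain ⟨N, hN, m, hm⟩ := h (max L₁ L₂)
  have e₁ := h₁ N (le_of_max_le_left hN) m
  have e₂ := h₂ N (le_of_max_le_right hN) m
  have e₃ : (cnt (A ∪ B) m N : ℝ) ≤ cnt A m N + cnt B m N := by
    exact_mod_cast cnt_union_le A B m N
  linarith

lemma PosBD.exists_ge {A : Set ℕ} (h : PosBD A) (a : ℕ) : ∃ n ∈ A, a ≤ n := by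
  classical
  by_contra hcon
  push Not at hcon
  obtain ⟨δ, hδ, h⟩ := h
  obtain ⟨L, hL⟩ := exists_nat_gt (a / δ)
  obtain ⟨N, hN, m, hm⟩ := h L
  have h1 : cnt A m N ≤ a := by
    unfold cnt
    calc _ ≤ (Finset.range a).card := by
          apply Finset.card_le_card
          intro j hj
          simp only [Finset.mem_filter, Finset.mem_range] at hj ⊢
          have := hcon _ hj.2
          omega
      _ = a := by simp
  have h2 : (cnt A m N : ℝ) ≤ a := by exact_mod_cast h1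
  have h3 : (L : ℝ) ≤ N := by exact_mod_cast hN
  rw [div_lt_iff₀ hδ] at hL
  nlinarith

lemma PosBD.nonempty {A : Set ℕ} (h : PosBD A) : A.Nonempty := by
  obtain ⟨n, hn, -⟩ := h.exists_ge 0
  exact ⟨n, hn⟩

lemma not_posBD_empty : ¬ PosBD (∅ : Set ℕ) := fun h => by simpa using h.nonempty

lemma posBD_univ : PosBD (Set.univ : Set ℕ) := by
  refine ⟨1, one_pos, fun L => ⟨L, le_rfl, 0, ?_⟩⟩
  simp [cnt]

lemma PosBD.biUnion {ι : Type*} (s : Finset ι) (A : ι → Set ℕ) (h : PosBD (⋃ i ∈ s, A i)) :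
    ∃ i ∈ s, PosBD (A i) := by
  classical
  induction s using Finset.induction_on with
  | empty => exact absurd (by simpa using h) not_posBD_empty
  | insert a s ha ih =>
    rw [Finset.set_biUnion_insert] at h
    rcases h.union with h | h
    · exact ⟨a, by simp, h⟩
    · obtain ⟨i, hi, h⟩ := ih h
      exact ⟨i, by simp [hi], h⟩

/-- The usual form of syndeticity. -/
def Synd (A : Set ℕ) : Prop := ∃ L : ℕ, ∀ n, ∃ j, j ≤ L ∧ n + j ∈ A

lemma syndetic_iff (A : Set ℕ) : Syndetic A ↔ Synd A := by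
  classical
  constructor
  · rintro ⟨hinf, L, hL⟩
    obtain ⟨a₀, ha₀⟩ := hinf.nonempty
    refine ⟨a₀ + L, fun n => ?_⟩
    induction n with
    | zero => exact ⟨a₀, by omega, by simpa using ha₀⟩
    | succ n ih =>
      obtain ⟨j, hj, hA⟩ := ih
      rcases Nat.eq_zero_or_pos j with rfl | hpos
      · obtain ⟨b, hb, h1, h2⟩ := hL _ hA
        refine ⟨b - (n + 1), by omega, ?_⟩
        rwa [show n + 1 + (b - (n + 1)) = b by omega]
      · refine ⟨j - 1, by omega, ?_⟩
        rwa [show n + 1 + (j - 1) = n + j by omega]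
  · rintro ⟨L, hL⟩
    refine ⟨Set.infinite_of_forall_exists_gt fun n => ?_, L + 1, fun a _ => ?_⟩
    · obtain ⟨j, -, hj⟩ := hL (n + 1)
      exact ⟨_, hj, by omega⟩
    · obtain ⟨j, hj, hA⟩ := hL (a + 1)
      exact ⟨_, hA, by omega, by omega⟩

lemma Synd.mono {A B : Set ℕ} (hA : Synd A) (h : A ⊆ B) : Synd B := by
  obtain ⟨L, hL⟩ := hA
  refine ⟨L, fun n => ?_⟩
  obtain ⟨j, hj, hA⟩ := hL n
  exact ⟨j, hj, h hA⟩

lemma synd_univ : Synd (Set.univ : Set ℕ) := ⟨0, fun _ => ⟨0, le_rfl, trivial⟩⟩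

lemma lowerDensity_pos_of {A : Set ℕ} {δ : ℝ} (hδ : 0 < δ)
    (h : ∀ᶠ N : ℕ in atTop, δ * ((N : ℝ) + 1) ≤ cnt A 0 (N + 1)) : 0 < lowerDensity A := by
  refine lt_of_lt_of_le hδ (le_liminf_of_le ?_ ?_)
  · exact isCoboundedUnder_ge_of_le atTop (fun N => windowDensity_le_one A 0 N)
  · filter_upwards [h] with N hN
    rw [windowDensity_eq, le_div_iff₀ (by positivity)]
    exact hN

lemma lowerDensity_le_upperDensity (A : Set ℕ) : lowerDensity A ≤ upperDensity A :=
  liminf_le_limsup (isBoundedUnder_of ⟨1, fun N => windowDensity_le_one A 0 N⟩)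
    (isBoundedUnder_of ⟨0, fun N => windowDensity_nonneg A 0 N⟩)

lemma upperDensity_nonpos_of {A : Set ℕ}
    (h : ∀ ε : ℝ, 0 < ε → ∀ᶠ N : ℕ in atTop, (cnt A 0 (N + 1) : ℝ) ≤ ε * ((N : ℝ) + 1)) :
    upperDensity A ≤ 0 := by
  refine le_of_forall_pos_le_add fun ε hε => ?_
  rw [zero_add]
  refine limsup_le_of_le ?_ ?_
  · exact isCoboundedUnder_le_of_le atTop (fun N => windowDensity_nonneg A 0 N)
  · filter_upwards [h ε hε] with N hN
    rw [windowDensity_eq, div_le_iff₀ (by positivity)]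
    exact hN

/-- A continuous semiconjugacy maps recurrent vectors to recurrent vectors. -/
lemma recVectors_map {X Y : Type*} [TopologicalSpace X] [TopologicalSpace Y]
    {F : Set ℕ → Prop} {S : X → X} {T : Y → Y} {π : X → Y} (hπ : Continuous π)
    (hc : ∀ x, π (S x) = T (π x)) {x : X} (hx : x ∈ recVectors F S) :
    π x ∈ recVectors F T := by
  intro U hU
  have h1 := hx (π ⁻¹' U) (hπ.continuousAt.preimage_mem_nhds hU)
  have h2 : returnSet S x (π ⁻¹' U) = returnSet T (π x) U := by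
    ext n
    have : π (S^[n] x) = T^[n] (π x) := (Function.Semiconj.iterate_right hc n) x
    simp only [returnSet, Set.mem_ofPred_eq, Set.mem_preimage, this]
  rwa [h2] at h1

end Pool.Agent.P.MP_cd1425_an
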