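import Pool.Agent.P.MP_cd1425_an.Uniform

/-!
From products of two points to `n`-fold direct sums.
-/

set_option autoImplicit false

open Filter Topology TopologicalSpace

namespace Pool.Agent.P.MP_cd1425_an

universe u

/-- pairs of `F`-recurrent points are limits of `F`-recurrent points of the product. -/
def ProdStable (F : Set ℕ → Prop) : Prop :=
  ∀ (X Y : Type u) [PseudoMetricSpace X] [CompleteSpace X] [PseudoMetricSpace Y] [CompleteSpace Y]
    (T : X → X) (S : Y → Y), Continuous T → Continuous S →
    ∀ x ∈ recVectors F T, ∀ y ∈ recVectors F S, (x, y) ∈ closure (recVectors F (Prod.map T S))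

theorem dense_directSum_metric {F : Set ℕ → Prop} (hF : ProdStable.{u} F) (hu : F Set.univ)
    {X : Type u} [PseudoMetricSpace X] [CompleteSpace X] {T : X → X} (hT : Continuous T)
    (h : Dense (recVectors F T)) (n : ℕ) : Dense (recVectors F (directSum n T)) := by
  induction n with
  | zero =>
    have : recVectors F (directSum 0 T) = Set.univ := by
      refine Set.eq_univ_of_forall fun x U hU => ?_
      have : returnSet (directSum 0 T) x U = Set.univ := by
        refine Set.eq_univ_of_forall fun m => ?_
        have : (directSum 0 T)^[m] x = x := Subsingleton.elim _ _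
        simp only [returnSet, Set.mem_ofPred_eq, this]
        exact mem_of_mem_nhds hU
      rwa [this]
    rw [this]
    exact dense_univ
  | succ n ih =>
    have hS : Continuous (directSum n T) :=
      continuous_pi fun i => hT.comp (continuous_apply i)
    have h1 : Dense (recVectors F (Prod.map T (directSum n T))) := by
      have h2 := h.prod ih
      rw [← dense_closure]
      refine h2.mono ?_
      rintro ⟨x, y⟩ ⟨hx, hy⟩
      exact hF _ _ T _ hT hS x hx y hy
    let π : X × (Fin n → X) → (Fin (n + 1) → X) := fun z => Fin.cons z.1 z.2
    have hπ : Continuous π := by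
      refine continuous_pi fun i => ?_
      refine Fin.cases ?_ (fun i => ?_) i
      · simpa [π] using continuous_fst
      · simp only [π, Fin.cons_succ]
        exact (continuous_apply i).comp continuous_snd
    have hsurj : Function.Surjective π := fun z => ⟨(z 0, Fin.tail z), Fin.cons_self_tail z⟩
    refine (hsurj.denseRange.dense_image hπ h1).mono ?_
    rintro _ ⟨z, hz, rfl⟩
    refine recVectors_map hπ (fun w => ?_) hz
    funext i
    refine Fin.cases ?_ (fun i => ?_) i <;> simp [π, directSum]

theorem dense_directSum_frechet {F : Set ℕ → Prop} (hF : ProdStable.{u} F) (hu : F Set.univ)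
    {𝕜 : Type*} {X : Type u} [RCLike 𝕜] [AddCommGroup X] [Module 𝕜 X] [UniformSpace X]
    [IsUniformAddGroup X] (hX : IsFrechet 𝕜 X) {T : X → X} (hT : Continuous T)
    (h : Dense (recVectors F T)) (n : ℕ) : Dense (recVectors F (directSum n T)) := by
  obtain ⟨-, hc, p, hp⟩ := hX
  have : FirstCountableTopology X := hp.firstCountableTopology
  have : (uniformity X).IsCountablyGenerated := IsUniformAddGroup.uniformity_countably_generated
  let : PseudoMetricSpace X := UniformSpace.pseudoMetricSpace X
  exact dense_directSum_metric hF hu hT h n

theorem prodStable_synd : ProdStable.{u} Synd :=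
  fun _ _ _ _ _ _ _ _ hT hS _ hx _ hy => synd_prod_metric hT hS hx hy

theorem uniformlyRecurrent_directSum {𝕜 : Type*} {X : Type u} [RCLike 𝕜] [AddCommGroup X]
    [Module 𝕜 X] [UniformSpace X] [IsUniformAddGroup X] (hX : IsFrechet 𝕜 X) {T : X → X}
    (hT : Continuous T) (h : UniformlyRecurrent T) (n : ℕ) :
    UniformlyRecurrent (directSum n T) := by
  have e : Syndetic = Synd := funext fun A => propext (syndetic_iff A)
  unfold UniformlyRecurrent at h ⊢
  rw [e] at h ⊢
  exact dense_directSum_frechet prodStable_synd synd_univ hX hT h n

end Pool.Agent.P.MP_cd1425_an
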