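import Pool.Agent.P.MP_cd1425_an.Density

/-!
Minimal closed shift invariant sets of ultrafilters on the natural numbers.
-/

set_option autoImplicit false

open Filter Topology

namespace Pool.Agent.P.MP_cd1425_an

/-- translate of an ultrafilter. -/
noncomputable def shiftU (n : ℕ) (p : Ultrafilter ℕ) : Ultrafilter ℕ := p.map (fun m => n + m)

lemma mem_shiftU {n : ℕ} {p : Ultrafilter ℕ} {A : Set ℕ} :
    A ∈ shiftU n p ↔ {m | n + m ∈ A} ∈ p := Ultrafilter.mem_map

lemma shiftU_shiftU (a b : ℕ) (p : Ultrafilter ℕ) : shiftU a (shiftU b p) = shiftU (a + b) p := by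
  ext A
  simp only [mem_shiftU, Set.mem_ofPred_eq, add_assoc]

lemma shiftU_zero (p : Ultrafilter ℕ) : shiftU 0 p = p := by
  ext A
  simp [mem_shiftU]

lemma continuous_shiftU (n : ℕ) : Continuous (shiftU n) := by
  refine ultrafilterBasis_is_basis.continuous_iff.2 ?_
  rintro _ ⟨A, rfl⟩
  exact ultrafilter_isOpen_basic {m | n + m ∈ A}

/-- a minimal closed left ideal. -/
structure IsMinL (L : Set (Ultrafilter ℕ)) : Prop where
  nonempty : L.Nonempty
  closed : IsClosed L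
  inv : ∀ p ∈ L, ∀ n, shiftU n p ∈ L
  le_atTop : ∀ p ∈ L, (p : Filter ℕ) ≤ atTop
  minimal : ∀ p ∈ L, ∀ q ∈ L, q ∈ closure (Set.range fun n => shiftU n p)

theorem exists_isMinL : ∃ L, IsMinL L := by
  let S : Set (Set (Ultrafilter ℕ)) := {L | L.Nonempty ∧ IsClosed L ∧
    (∀ p ∈ L, ∀ n, shiftU n p ∈ L) ∧ ∀ p ∈ L, (p : Filter ℕ) ≤ atTop}
  have h0 : {p : Ultrafilter ℕ | (p : Filter ℕ) ≤ atTop} ∈ S := by
    refine ⟨⟨Ultrafilter.of atTop, Ultrafilter.of_le _⟩, ?_, ?_, fun p hp => hp⟩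
    · have : {p : Ultrafilter ℕ | (p : Filter ℕ) ≤ atTop} =
          ⋂ s ∈ (atTop : Filter ℕ), {p : Ultrafilter ℕ | s ∈ p} := by
        ext p
        simp only [Set.mem_ofPred_eq, Set.mem_iInter]
        rfl
      rw [this]
      exact isClosed_biInter fun s _ => ultrafilter_isClosed_basic s
    · intro p hp n
      have : Tendsto (fun m => n + m) (p : Filter ℕ) atTop :=
        (tendsto_atTop_mono (fun m => Nat.le_add_left m n) tendsto_id).mono_left hp
      exact this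
  obtain ⟨L, -, hL⟩ := zorn_superset_nonempty S (fun c hc hchain hne => by
    refine ⟨⋂₀ c, ⟨?_, isClosed_sInter fun t ht => (hc ht).2.1, ?_, ?_⟩,
      fun s hs => Set.sInter_subset_of_mem hs⟩
    · have : Nonempty c := hne.to_subtype
      refine IsCompact.nonempty_sInter_of_directed_nonempty_isCompact_isClosed
        (IsChain.directedOn hchain.symm) (fun t ht => (hc ht).1)
        (fun t ht => (hc ht).2.1.isCompact) (fun t ht => (hc ht).2.1)
    · intro p hp n t ht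
      exact (hc ht).2.2.1 p (hp t ht) n
    · intro p hp
      obtain ⟨t, ht⟩ := hne
      exact (hc ht).2.2.2 p (hp t ht)) _ h0
  obtain ⟨h1, h2, h3, h4⟩ := hL.prop
  refine ⟨L, h1, h2, h3, h4, fun p hp q hq => ?_⟩
  have hsub : closure (Set.range fun n => shiftU n p) ⊆ L :=
    h2.closure_subset_iff.2 (by rintro _ ⟨n, rfl⟩; exact h3 p hp n)
  have hS : closure (Set.range fun n => shiftU n p) ∈ S := by
    refine ⟨⟨p, subset_closure ⟨0, shiftU_zero p⟩⟩, isClosed_closure, ?_,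
      fun r hr => h4 r (hsub hr)⟩
    intro r hr n
    refine map_mem_closure (continuous_shiftU n) hr ?_
    rintro _ ⟨m, rfl⟩
    exact ⟨n + m, (shiftU_shiftU n m p).symm⟩
  exact hL.le_of_le hS hsub hq

lemma IsMinL.exists_shift {L : Set (Ultrafilter ℕ)} (hL : IsMinL L) {A : Set ℕ}
    {q : Ultrafilter ℕ} (hq : q ∈ L) (hA : A ∈ q) {p : Ultrafilter ℕ} (hp : p ∈ L) :
    ∃ j, A ∈ shiftU j p := by
  obtain ⟨r, hr, j, rfl⟩ := mem_closure_iff.1 (hL.minimal p hp q hq) _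
    (ultrafilter_isOpen_basic A) hA
  exact ⟨j, hr⟩

lemma IsMinL.exists_bound {L : Set (Ultrafilter ℕ)} (hL : IsMinL L) {A : Set ℕ}
    {q : Ultrafilter ℕ} (hq : q ∈ L) (hA : A ∈ q) :
    ∃ g : ℕ, ∀ p ∈ L, ∃ j, j ≤ g ∧ A ∈ shiftU j p := by
  obtain ⟨t, ht⟩ := hL.closed.isCompact.elim_finite_subcover
    (fun j : ℕ => {p : Ultrafilter ℕ | {m | j + m ∈ A} ∈ p})
    (fun j => ultrafilter_isOpen_basic _)
    (fun p hp => by
      obtain ⟨j, hj⟩ := hL.exists_shift hq hA hp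
      exact Set.mem_iUnion.2 ⟨j, mem_shiftU.1 hj⟩)
  refine ⟨t.sup id, fun p hp => ?_⟩
  obtain ⟨j, hj, hp⟩ := Set.mem_iUnion₂.1 (ht hp)
  exact ⟨j, Finset.le_sup (f := id) hj, mem_shiftU.2 hp⟩

/-- a syndetic set belongs to a bounded translate of every ultrafilter. -/
lemma Synd.exists_shift {A : Set ℕ} (hA : Synd A) (p : Ultrafilter ℕ) :
    ∃ j, A ∈ shiftU j p := by
  obtain ⟨g, hg⟩ := hA
  have : (⋃ j ∈ Finset.range (g + 1), {m | j + m ∈ A}) ∈ p := by
    have : (⋃ j ∈ Finset.range (g + 1), {m | j + m ∈ A}) = Set.univ := by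
      refine Set.eq_univ_of_forall fun n => ?_
      obtain ⟨j, hj, h⟩ := hg n
      exact Set.mem_iUnion₂.2 ⟨j, by simpa using Nat.lt_succ_of_le hj,
        by simpa [add_comm] using h⟩
    rw [this]
    exact univ_mem
  obtain ⟨j, -, hj⟩ := (Ultrafilter.finite_biUnion_mem_iff (Finset.finite_toSet _)).1 this
  exact ⟨j, mem_shiftU.2 hj⟩

end Pool.Agent.P.MP_cd1425_an
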