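import Pool.Agent.P.MP_cd1425_an.Density

/-!
Elementary lemmas on the upper Banach density.
-/

set_option autoImplicit false

open Filter Topology

namespace Pool.Agent.P.MP_cd1425_an

lemma cnt_succ (A : Set ℕ) (m N : ℕ) [Decidable (m + N ∈ A)] :
    cnt A m (N + 1) = cnt A m N + if m + N ∈ A then 1 else 0 := by
  classical
  unfold cnt
  rw [Finset.range_add_one, Finset.filter_insert]
  split_ifs with h
  · rw [Finset.card_insert_of_notMem (by simp)]
  · simp

lemma cnt_zero (A : Set ℕ) (m : ℕ) : cnt A m 0 = 0 := by simp [cnt]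

lemma cnt_add (A : Set ℕ) (m N N' : ℕ) :
    cnt A m (N + N') = cnt A m N + cnt A (m + N) N' := by
  classical
  induction N' with
  | zero => simp [cnt_zero]
  | succ k ih =>
    rw [← add_assoc, cnt_succ, cnt_succ, ih, add_assoc (cnt A m N), add_assoc m N k]

lemma cnt_shift_le (A : Set ℕ) (m N k : ℕ) : cnt A m N ≤ cnt A (m + k) N + k := by
  have h1 := cnt_add A m N k
  have h2 := cnt_add A m k N
  have h3 := cnt_le A m k
  rw [add_comm k N] at h2
  omega

lemma cnt_eq_sum (A : Set ℕ) (m N : ℕ) [DecidablePred (· ∈ A)] :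
    (cnt A m N : ℝ) = ∑ j ∈ Finset.range N, if m + j ∈ A then (1 : ℝ) else 0 := by
  induction N with
  | zero => simp [cnt_zero]
  | succ k ih =>
    rw [cnt_succ, Finset.sum_range_succ, ← ih]
    push_cast
    rfl

lemma cnt_inter (A B : Set ℕ) (a b N : ℕ) :
    cnt A a N + cnt B b N ≤ N + cnt {n | a + n ∈ A ∧ b + n ∈ B} 0 N := by
  classical
  induction N with
  | zero => simp [cnt_zero]
  | succ k ih =>
    rw [cnt_succ, cnt_succ, cnt_succ]
    simp only [Set.mem_ofPred_eq, zero_add]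
    split_ifs <;> first | omega | tauto

lemma exists_of_cnt_pos {A : Set ℕ} {m N : ℕ} (h : 0 < cnt A m N) : ∃ j, j < N ∧ m + j ∈ A := by
  classical
  obtain ⟨j, hj⟩ := Finset.card_pos.1 h
  simp only [Finset.mem_filter, Finset.mem_range] at hj
  exact ⟨j, hj⟩

lemma exists_common {A B : Set ℕ} {a b N : ℕ} (h : (N : ℝ) < cnt A a N + cnt B b N) :
    ∃ j, a + j ∈ A ∧ b + j ∈ B := by
  have h1 : N < cnt A a N + cnt B b N := by exact_mod_cast h
  have h2 := cnt_inter A B a b N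
  obtain ⟨j, -, hj⟩ := exists_of_cnt_pos (A := {n | a + n ∈ A ∧ b + n ∈ B}) (m := 0) (N := N)
    (by omega)
  exact ⟨j, by simpa using hj⟩

/-- arbitrarily long windows of density at least `δ`. -/
def PD (A : Set ℕ) (δ : ℝ) : Prop := ∀ L : ℕ, ∃ N, L ≤ N ∧ ∃ m, δ * N ≤ cnt A m N

/-- windows of every length, arbitrarily far, of density at least `δ`. -/
def UB (A : Set ℕ) (δ : ℝ) : Prop := ∀ N m₀ : ℕ, ∃ m, m₀ ≤ m ∧ δ * N ≤ cnt A m N

lemma UB.mono {A B : Set ℕ} {δ : ℝ} (h : UB A δ) (hAB : A ⊆ B) : UB B δ := fun N m₀ => by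
  obtain ⟨m, hm, h⟩ := h N m₀
  exact ⟨m, hm, h.trans (by exact_mod_cast cnt_mono hAB m N)⟩

lemma PD.ub {A : Set ℕ} {δ δ' : ℝ} (h : PD A δ) (hδ : δ' < δ) : UB A δ' := by
  intro N m₀
  by_contra hcon
  push Not at hcon
  have h0 : 0 < δ' * N := lt_of_le_of_lt (Nat.cast_nonneg _) (hcon m₀ le_rfl)
  have hN : 0 < N := by
    rcases Nat.eq_zero_or_pos N with rfl | h
    · simp at h0
    · exact h
  have hN' : (0 : ℝ) < N := by exact_mod_cast hN
  have hδ' : 0 < δ' := (mul_pos_iff_of_pos_right hN').1 h0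
  have h1 : ∀ k m, m₀ ≤ m → (cnt A m (k * N) : ℝ) ≤ k * (δ' * N) := by
    intro k
    induction k with
    | zero => intro m _; simp [cnt_zero]
    | succ k ih =>
      intro m hm
      rw [Nat.succ_mul, cnt_add]
      have := ih m hm
      have := hcon (m + k * N) (by omega)
      push_cast
      linarith
  obtain ⟨L, hL⟩ := exists_nat_gt ((m₀ + δ' * N) / (δ - δ'))
  obtain ⟨N', hLN, m, hm⟩ := h L
  have h2 := cnt_shift_le A m N' m₀
  have h3 : N' ≤ (N' / N + 1) * N := by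
    have := Nat.div_add_mod N' N
    have := Nat.mod_lt N' hN
    nlinarith
  obtain ⟨r, hr⟩ := Nat.exists_eq_add_of_le h3
  have h4 := cnt_add A (m + m₀) N' r
  have h5 := h1 (N' / N + 1) (m + m₀) (by omega)
  rw [hr, h4] at h5
  have h6 : ((N' / N : ℕ) : ℝ) * N ≤ N' := by exact_mod_cast Nat.div_mul_le_self N' N
  have h7 : (cnt A m N' : ℝ) ≤ cnt A (m + m₀) N' + m₀ := by exact_mod_cast h2
  have h8 : (L : ℝ) ≤ N' := by exact_mod_cast hLN
  rw [div_lt_iff₀ (by linarith)] at hL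
  push_cast at h5
  have h9 : (0 : ℝ) ≤ cnt A (m + m₀ + N') r := Nat.cast_nonneg _
  nlinarith

lemma PosBD.exists_ub {A : Set ℕ} (h : PosBD A) : ∃ δ : ℝ, 0 < δ ∧ UB A δ := by
  obtain ⟨δ, hδ, h⟩ := h
  exact ⟨δ / 2, by positivity, PD.ub h (by linarith)⟩

/-- most positions start a dense window. -/
lemma PosBD.dense_windows {B : Set ℕ} (h : PosBD B) : ∃ β : ℝ, 0 < β ∧ ∀ ε : ℝ, 0 < ε →
    ∀ L : ℕ, ∃ M : ℕ, L ≤ M ∧ UB {q | β * M ≤ cnt B q M} (1 - ε) := by
  classical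
  let S : Set ℝ := {δ | PD B δ}
  have hb : BddAbove S := by
    refine ⟨1, fun δ hδ => ?_⟩
    obtain ⟨N, hN, m, hm⟩ := hδ 1
    have h1 : (cnt B m N : ℝ) ≤ N := by exact_mod_cast cnt_le B m N
    have h2 : (1 : ℝ) ≤ N := by exact_mod_cast hN
    by_contra hcon
    push Not at hcon
    nlinarith
  obtain ⟨δ₀, hδ₀, h₀⟩ := h
  have hd : 0 < sSup S := hδ₀.trans_le (le_csSup hb h₀)
  set d := sSup S with hdd
  refine ⟨d / 2, by positivity, fun ε hε L => ?_⟩
  set η := ε * d / 16 with hη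
  have hη0 : 0 < η := by positivity
  have h1 : ¬ PD B (d + η) := fun h => by have := le_csSup hb h; linarith
  unfold PD at h1
  push Not at h1
  obtain ⟨L', hL'⟩ := h1
  obtain ⟨δ, hδS, hδ⟩ := exists_lt_of_lt_csSup (s := S) ⟨δ₀, h₀⟩ (show d - η < sSup S by linarith)
  set M := max (max L L') 1 with hM
  have hM1 : (1 : ℝ) ≤ M := by exact_mod_cast le_max_right _ _
  refine ⟨M, (le_max_left _ _).trans (le_max_left _ _), PD.ub (δ := 1 - ε / 2) ?_ (by linarith)⟩
  intro L₁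
  obtain ⟨L₂, hL₂⟩ := exists_nat_gt (M / (2 * η))
  obtain ⟨N, hN, m, hm⟩ := hδS (max L₁ L₂)
  refine ⟨N, (le_max_left _ _).trans hN, m, ?_⟩
  set Q : Set ℕ := {q | d / 2 * M ≤ cnt B q M} with hQ
  have h2 : ∑ q ∈ Finset.range N, (cnt B (m + q) M : ℝ) =
      ∑ i ∈ Finset.range M, (cnt B (m + i) N : ℝ) := by
    simp only [cnt_eq_sum]
    rw [Finset.sum_comm]
    refine Finset.sum_congr rfl fun i _ => Finset.sum_congr rfl fun q _ => ?_
    rw [add_right_comm]
  have h3 : (M : ℝ) * (cnt B m N - M) ≤ ∑ i ∈ Finset.range M, (cnt B (m + i) N : ℝ) := by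
    have := Finset.card_nsmul_le_sum (Finset.range M) (fun i => (cnt B (m + i) N : ℝ))
      (cnt B m N - M) (fun i hi => by
        have h4 : (cnt B m N : ℝ) ≤ cnt B (m + i) N + i := by exact_mod_cast cnt_shift_le B m N i
        have h5 : (i : ℝ) ≤ M := by exact_mod_cast (Finset.mem_range.1 hi).le
        linarith)
    simpa using this
  have h4 : ∑ q ∈ Finset.range N, (cnt B (m + q) M : ℝ) ≤
      ∑ q ∈ Finset.range N, (d / 2 * M + (d / 2 + η) * M * if m + q ∈ Q then (1 : ℝ) else 0) := by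
    refine Finset.sum_le_sum fun q _ => ?_
    split_ifs with hq
    · have := hL' M ((le_max_right _ _).trans (le_max_left _ _)) (m + q)
      linarith
    · have : ¬ (d / 2 * M ≤ cnt B (m + q) M) := hq
      linarith
  rw [Finset.sum_add_distrib, ← Finset.mul_sum _ _ ((d / 2 + η) * M), ← cnt_eq_sum] at h4
  simp only [Finset.sum_const, Finset.card_range, nsmul_eq_mul] at h4
  have h5 : (cnt B m N : ℝ) - M ≤ N * (d / 2) + (d / 2 + η) * cnt Q m N := by
    refine le_of_mul_le_mul_left ?_ (show (0 : ℝ) < M by linarith)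
    nlinarith
  have h6 : (L₂ : ℝ) ≤ N := by exact_mod_cast (le_max_right _ _).trans hN
  rw [div_lt_iff₀ (by positivity)] at hL₂
  have h7 : (0 : ℝ) ≤ N := Nat.cast_nonneg _
  have h8 : (d - η) * N ≤ cnt B m N := le_trans (by nlinarith) hm
  refine le_of_mul_le_mul_left ?_ (show 0 < d / 2 + η by positivity)
  have h9 : ε * d * N = 16 * η * N := by rw [hη]; ring
  have h10 : 0 ≤ ε * η * N := by positivity
  nlinarith

/-- differences of a very dense set and a dense set contain long intervals. -/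
lemma thick_of_ub {Q C : Set ℕ} {ε δ : ℝ} (hQ : UB Q (1 - ε)) (hC : UB C δ) (h : ε < δ)
    (K n₀ : ℕ) : ∃ n, n₀ ≤ n ∧ ∀ k, k ≤ K → ∃ c ∈ C, c + (n + k) ∈ Q := by
  obtain ⟨N, hN⟩ := exists_nat_gt (K / (δ - ε))
  rw [div_lt_iff₀ (by linarith)] at hN
  obtain ⟨m, -, hm⟩ := hC N 0
  obtain ⟨m', hm', hm''⟩ := hQ N (m + n₀)
  refine ⟨m' - m, by omega, fun k hk => ?_⟩
  have h1 : (cnt Q m' N : ℝ) ≤ cnt Q (m' + k) N + k := by exact_mod_cast cnt_shift_le Q m' N k
  have h2 : (k : ℝ) ≤ K := by exact_mod_cast hk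
  obtain ⟨j, hj, hj'⟩ := exists_common (A := C) (B := Q) (a := m) (b := m' + k) (N := N)
    (by nlinarith)
  refine ⟨m + j, hj, ?_⟩
  rwa [show m + j + (m' - m + k) = m' + k + j by omega]

/-- the difference set of a set of positive upper Banach density is syndetic. -/
lemma PosBD.synd_diff {D : Set ℕ} (h : PosBD D) :
    ∃ K, ∀ n, ∃ k, k ≤ K ∧ ∃ u ∈ D, u + (n + k) ∈ D := by
  obtain ⟨β, hβ, h⟩ := h.dense_windows
  obtain ⟨M, hM, h⟩ := h (1 / 4) (by norm_num) 1
  have hM' : (1 : ℝ) ≤ M := by exact_mod_cast hM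
  have h1 : ∀ q, β * M ≤ cnt D q M → ∃ f, f < M ∧ q + f ∈ D := fun q hq =>
    exists_of_cnt_pos (by
      have : (0 : ℝ) < cnt D q M := lt_of_lt_of_le (by positivity) hq
      exact_mod_cast this)
  refine ⟨2 * M, fun n => ?_⟩
  obtain ⟨m, -, hm⟩ := h (2 * (n + M) + 1) 0
  have h2 := cnt_shift_le {q | β * M ≤ cnt D q M} m (2 * (n + M) + 1) (n + M)
  have h3 : (cnt {q | β * M ≤ cnt D q M} m (2 * (n + M) + 1) : ℝ) ≤
      cnt {q | β * M ≤ cnt D q M} (m + (n + M)) (2 * (n + M) + 1) + (n + M : ℕ) := by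
    exact_mod_cast h2
  obtain ⟨j, hj, hj'⟩ := exists_common (A := {q | β * M ≤ cnt D q M})
    (B := {q | β * M ≤ cnt D q M}) (a := m) (b := m + (n + M)) (N := 2 * (n + M) + 1)
    (by push_cast at hm h3 ⊢; linarith)
  obtain ⟨f, hf, hfD⟩ := h1 _ hj
  obtain ⟨f', hf', hfD'⟩ := h1 _ hj'
  refine ⟨M + f' - f, by omega, m + j + f, hfD, ?_⟩
  rwa [show m + j + f + (n + (M + f' - f)) = m + (n + M) + j + f' by omega]

end Pool.Agent.P.MP_cd1425_an
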