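import Pool.Agent.P.MP_cd1425_an.Reit1

/-!
The topology on the natural numbers attached to a filter, and the key density lemma for pairs.
-/

set_option autoImplicit false

open Filter Topology

namespace Pool.Agent.P.MP_cd1425_an

/-- open sets for the filter `𝓕`. -/
def Op (𝓕 : Filter ℕ) (A : Set ℕ) : Prop := ∀ a ∈ A, {n | a + n ∈ A} ∈ 𝓕

variable {𝓕 𝓖 : Filter ℕ}

lemma Op.inter {A B : Set ℕ} (hA : Op 𝓕 A) (hB : Op 𝓕 B) : Op 𝓕 (A ∩ B) := fun a ha =>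
  inter_mem (hA a ha.1) (hB a ha.2)

lemma Op.pre {A : Set ℕ} (hA : Op 𝓕 A) (f : ℕ) : Op 𝓕 {n | n + f ∈ A} := fun a ha => by
  filter_upwards [hA _ ha] with n hn
  rwa [add_right_comm]

lemma Op.img {A : Set ℕ} (hA : Op 𝓕 A) (f : ℕ) : Op 𝓕 {n | ∃ a ∈ A, a + f = n} := by
  rintro _ ⟨a, ha, rfl⟩
  filter_upwards [hA _ ha] with n hn
  exact ⟨a + n, hn, add_right_comm _ _ _⟩

lemma Op.finset {A : Set ℕ} (hA : Op 𝓕 A) (J : Finset ℕ) : Op 𝓕 {n | ∀ j ∈ J, n + j ∈ A} := by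
  intro a ha
  have : ∀ᶠ n in 𝓕, ∀ j ∈ J, a + n + j ∈ A :=
    (eventually_all_finset J).2 fun j hj => (hA.pre j) a (ha j hj)
  exact this

lemma Op.posBD (h𝓕 : ∀ D ∈ 𝓕, PosBD D) {A : Set ℕ} (hA : Op 𝓕 A) (hne : A.Nonempty) :
    PosBD A := by
  obtain ⟨a, ha⟩ := hne
  exact (h𝓕 _ (hA a ha)).shift a fun n hn => by rwa [add_comm]

lemma Op.cnt {A : Set ℕ} (hA : Op 𝓕 A) (c : ℝ) (M : ℕ) : Op 𝓕 {p | c ≤ cnt A p M} := by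
  classical
  intro p hp
  filter_upwards [hA.finset ((Finset.range M).filter fun j => p + j ∈ A) p
    (fun j hj => (Finset.mem_filter.1 hj).2)] with n hn
  refine le_trans hp ?_
  have : Pool.Agent.P.MP_cd1425_an.cnt A p M ≤ Pool.Agent.P.MP_cd1425_an.cnt A (p + n) M := by
    unfold Pool.Agent.P.MP_cd1425_an.cnt
    refine Finset.card_le_card fun j hj => ?_
    simp only [Finset.mem_filter] at hj ⊢
    exact ⟨hj.1, hn j (Finset.mem_filter.2 hj)⟩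
  exact_mod_cast this

lemma exists_common_time (h𝓕 : ∀ D ∈ 𝓕, PosBD D) {A P Q C : Set ℕ} (hA : Op 𝓕 A)
    (hP : Op 𝓕 P) (hA0 : A.Nonempty) (hP0 : P.Nonempty) {ε δ : ℝ} (hQ : UB Q (1 - ε))
    (hC : UB C δ) (h : ε < δ) : ∃ a ∈ A, ∃ c ∈ C, ∃ n, a + n ∈ P ∧ c + n ∈ Q := by
  obtain ⟨a₀, ha₀⟩ := hA0
  obtain ⟨p, hp⟩ := hP0
  obtain ⟨K, hK⟩ := (h𝓕 _ (inter_mem (hA a₀ ha₀) (hP p hp))).synd_diff
  obtain ⟨n₁, hn₁, H⟩ := thick_of_ub hQ hC h K p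
  obtain ⟨k, hk, u, hu, hu'⟩ := hK (n₁ + a₀ - p)
  obtain ⟨c, hc, hc'⟩ := H k hk
  refine ⟨a₀ + u, hu.1, c, hc, n₁ + k, ?_, hc'⟩
  have := hu'.2
  rwa [Set.mem_ofPred_eq, show p + (u + (n₁ + a₀ - p + k)) = a₀ + u + (n₁ + k) by omega] at this

/-- the pair `(a, b)` has a long window of dense common returns. -/
def Good (A B : Set ℕ) (δ : ℝ) (L a b : ℕ) : Prop :=
  ∃ N, L ≤ N ∧ ∃ m, δ * N ≤ cnt {n | a + n ∈ A ∧ b + n ∈ B} m N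

lemma Good.mono {A B : Set ℕ} {δ : ℝ} {L L' a b : ℕ} (h : Good A B δ L a b) (hL : L' ≤ L) :
    Good A B δ L' a b := by
  obtain ⟨N, hN, h⟩ := h
  exact ⟨N, hL.trans hN, h⟩

lemma cnt_biUnion_le (R : ℕ → Set ℕ) (k m N : ℕ) :
    cnt {n | ∃ f, f < k ∧ n ∈ R f} m N ≤ ∑ f ∈ Finset.range k, cnt (R f) m N := by
  induction k with
  | zero =>
    by_contra hcon
    obtain ⟨j, -, f, hf, -⟩ := exists_of_cnt_pos (lt_of_le_of_lt (Nat.zero_le _) (not_le.1 hcon))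
    omega
  | succ k ih =>
    rw [Finset.sum_range_succ]
    refine le_trans (cnt_mono (B := {n | ∃ f, f < k ∧ n ∈ R f} ∪ R k) ?_ m N)
      ((cnt_union_le _ _ _ _).trans (by omega))
    rintro n ⟨f, hf, hn⟩
    rcases Nat.lt_succ_iff_lt_or_eq.1 hf with h | rfl
    · exact Or.inl ⟨f, h, hn⟩
    · exact Or.inr hn

lemma cnt_congr {A B : Set ℕ} {a b : ℕ} (h : ∀ j, a + j ∈ A ↔ b + j ∈ B) (N : ℕ) :
    cnt A a N = cnt B b N := by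
  classical
  unfold cnt
  congr 1
  ext j
  simp [h]

lemma key_cover (h𝓕 : ∀ D ∈ 𝓕, PosBD D) {A B : Set ℕ} (hA : Op 𝓕 A) (hA0 : A.Nonempty)
    (hB : PosBD B) : ∃ δ : ℝ, 0 < δ ∧ ∃ M₀ : ℕ, ∀ A' C : Set ℕ, Op 𝓕 A' → A'.Nonempty →
      PosBD C → ∀ L, ∃ a ∈ A', ∃ c ∈ C, ∃ f, f < M₀ ∧ Good A B δ L (a + f) c := by
  obtain ⟨β, hβ, hB⟩ := hB.dense_windows
  obtain ⟨α, hα, hA'⟩ := (hA.posBD h𝓕 hA0).dense_windows
  obtain ⟨M₀, hM₀, hG⟩ := hA' (β / 2) (by positivity) 1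
  have hM₀' : (1 : ℝ) ≤ M₀ := by exact_mod_cast hM₀
  let G : Set ℕ := {q | ∃ f, f < M₀ ∧ q + f ∈ A}
  have hG' : UB G (1 - β / 2) := hG.mono fun q hq => exists_of_cnt_pos (by
    have : (0 : ℝ) < cnt A q M₀ := lt_of_lt_of_le (by positivity) hq
    exact_mod_cast this)
  have hGo : Op 𝓕 G := by
    rintro q ⟨f, hf, hq⟩
    filter_upwards [hA.pre f q hq] with n hn
    exact ⟨f, hf, hn⟩
  refine ⟨β / (2 * M₀), by positivity, M₀, fun A' C hA' hA'0 hC L => ?_⟩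
  obtain ⟨γ, hγ, hC⟩ := hC.exists_ub
  obtain ⟨M, hM, hQ⟩ := hB (γ / 2) (by positivity) L
  obtain ⟨p, -, hp⟩ := hG' M 0
  obtain ⟨a, ha, c, hc, n, h1, h2⟩ := exists_common_time h𝓕 hA' (hGo.cnt ((1 - β / 2) * M) M)
    hA'0 ⟨p, hp⟩ hQ hC (by linarith)
  refine ⟨a, ha, c, hc, ?_⟩
  by_contra hcon
  push Not at hcon
  have h3 : ∀ f ∈ Finset.range M₀,
      (cnt {n' | a + f + n' ∈ A ∧ c + n' ∈ B} n M : ℝ) < β / (2 * M₀) * M := fun f hf => by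
    by_contra h
    exact hcon f (Finset.mem_range.1 hf) ⟨M, hM, n, not_lt.1 h⟩
  have h4 := Finset.sum_lt_sum_of_nonempty (by simp; omega) h3
  have h5 := cnt_biUnion_le (fun f => {n' | a + f + n' ∈ A ∧ c + n' ∈ B}) M₀ n M
  have h6 := cnt_inter G B (a + n) (c + n) M
  have h7 : cnt {j | a + n + j ∈ G ∧ c + n + j ∈ B} 0 M =
      cnt {n' | ∃ f, f < M₀ ∧ n' ∈ {n' | a + f + n' ∈ A ∧ c + n' ∈ B}} n M := by
    refine cnt_congr (fun j => ?_) M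
    simp only [G, Set.mem_ofPred_eq, zero_add]
    constructor
    · rintro ⟨⟨f, hf, h⟩, h'⟩
      exact ⟨f, hf, by rwa [show a + f + (n + j) = a + n + j + f by omega], by rwa [← add_assoc]⟩
    · rintro ⟨f, hf, h, h'⟩
      exact ⟨⟨f, hf, by rwa [show a + n + j + f = a + f + (n + j) by omega]⟩, by rwa [add_assoc]⟩
  rw [h7] at h6
  have h8 : (cnt G (a + n) M : ℝ) + cnt B (c + n) M ≤
      M + ∑ f ∈ Finset.range M₀, (cnt {n' | a + f + n' ∈ A ∧ c + n' ∈ B} n M : ℝ) := by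
    exact_mod_cast h6.trans (Nat.add_le_add_left h5 _)
  simp only [Finset.sum_const, Finset.card_range, nsmul_eq_mul] at h4
  have h9 : (M₀ : ℝ) * (β / (2 * M₀) * M) = β / 2 * M := by field_simp
  have h1' : (1 - β / 2) * M ≤ cnt G (a + n) M := h1
  have h2' : β * M ≤ cnt B (c + n) M := h2
  linarith

/-- nonempty open rectangles. -/
structure Rect (𝓕 𝓖 : Filter ℕ) where
  /-- first side -/
  A : Set ℕ
  /-- second side -/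
  B : Set ℕ
  opA : Op 𝓕 A
  opB : Op 𝓖 B
  neA : A.Nonempty
  neB : B.Nonempty

/-- inclusion of rectangles. -/
def Rect.Sub (P Q : Rect 𝓕 𝓖) : Prop := P.A ⊆ Q.A ∧ P.B ⊆ Q.B

lemma Rect.Sub.rfl {P : Rect 𝓕 𝓖} : P.Sub P := ⟨subset_rfl, subset_rfl⟩

lemma Rect.Sub.trans {P Q R : Rect 𝓕 𝓖} (h : P.Sub Q) (h' : Q.Sub R) : P.Sub R :=
  ⟨h.1.trans h'.1, h.2.trans h'.2⟩

/-- translate of a rectangle. -/
def Rect.img (P : Rect 𝓕 𝓖) (f g : ℕ) : Rect 𝓕 𝓖 where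
  A := {n | ∃ a ∈ P.A, a + f = n}
  B := {n | ∃ a ∈ P.B, a + g = n}
  opA := P.opA.img f
  opB := P.opB.img g
  neA := P.neA.elim fun a ha => ⟨_, a, ha, rfl⟩
  neB := P.neB.elim fun a ha => ⟨_, a, ha, rfl⟩

lemma Rect.exists_pre {P Q : Rect 𝓕 𝓖} {f g : ℕ} (h : Q.Sub (P.img f g)) :
    ∃ R : Rect 𝓕 𝓖, R.Sub P ∧ (∀ a ∈ R.A, a + f ∈ Q.A) ∧ ∀ b ∈ R.B, b + g ∈ Q.B := by
  refine ⟨⟨{n | n + f ∈ Q.A}, {n | n + g ∈ Q.B}, Q.opA.pre f, Q.opB.pre g, ?_, ?_⟩,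
    ⟨fun a ha => ?_, fun b hb => ?_⟩, fun _ h => h, fun _ h => h⟩
  · obtain ⟨x, hx⟩ := Q.neA
    obtain ⟨a, -, rfl⟩ := h.1 hx
    exact ⟨a, hx⟩
  · obtain ⟨x, hx⟩ := Q.neB
    obtain ⟨a, -, rfl⟩ := h.2 hx
    exact ⟨a, hx⟩
  · obtain ⟨a', ha', e⟩ := h.1 ha
    rwa [← Nat.add_right_cancel e]
  · obtain ⟨a', ha', e⟩ := h.2 hb
    rwa [← Nat.add_right_cancel e]

theorem exists_dense_good (h𝓕 : ∀ D ∈ 𝓕, PosBD D) (h𝓖 : ∀ D ∈ 𝓖, PosBD D) (P : Rect 𝓕 𝓖) :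
    ∃ δ : ℝ, 0 < δ ∧ ∃ R : Rect 𝓕 𝓖, R.Sub P ∧ ∀ Q : Rect 𝓕 𝓖, Q.Sub R → ∀ L,
      ∃ a ∈ Q.A, ∃ b ∈ Q.B, Good P.A P.B δ L a b := by
  obtain ⟨δ, hδ, M₀, H⟩ := key_cover h𝓕 P.opA P.neA (P.opB.posBD h𝓖 P.neB)
  refine ⟨δ / 2, by positivity, ?_⟩
  by_contra hcon
  push Not at hcon
  have h1 : ∀ R : Rect 𝓕 𝓖, ∃ Q : Rect 𝓕 𝓖, Q.Sub R ∧ ∃ L, ∀ a ∈ Q.A, ∀ b ∈ Q.B,
      ¬ Good P.A P.B δ L a b := by
    intro R
    by_cases hc : ∃ a ∈ R.A, ∃ b ∈ R.B, ∃ n, a + n ∈ P.A ∧ b + n ∈ P.B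
    · obtain ⟨a, ha, b, hb, n, h1, h2⟩ := hc
      let R₁ : Rect 𝓕 𝓖 := ⟨(R.img n n).A ∩ P.A, (R.img n n).B ∩ P.B,
        (R.img n n).opA.inter P.opA, (R.img n n).opB.inter P.opB,
        ⟨a + n, ⟨a, ha, rfl⟩, h1⟩, ⟨b + n, ⟨b, hb, rfl⟩, h2⟩⟩
      obtain ⟨R₂, hR₂, L, hL⟩ := hcon R₁ ⟨Set.inter_subset_right, Set.inter_subset_right⟩
      obtain ⟨Q, hQ, hQA, hQB⟩ := Rect.exists_pre (P := R) (f := n) (g := n)
        (hR₂.trans ⟨Set.inter_subset_left, Set.inter_subset_left⟩)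
      obtain ⟨L', hL'⟩ := exists_nat_gt (2 * n / δ)
      refine ⟨Q, hQ, max L L', fun a' ha' b' hb' ⟨N, hN, m, hm⟩ => ?_⟩
      refine hL _ (hQA a' ha') _ (hQB b' hb') ⟨N, (le_max_left _ _).trans hN, m, ?_⟩
      have h3 : cnt {k | a' + n + k ∈ P.A ∧ b' + n + k ∈ P.B} m N =
          cnt {k | a' + k ∈ P.A ∧ b' + k ∈ P.B} (m + n) N :=
        cnt_congr (fun j => by
          simp only [Set.mem_ofPred_eq]
          rw [show a' + n + (m + j) = a' + (m + n + j) by omega,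
            show b' + n + (m + j) = b' + (m + n + j) by omega]) N
      have h4 : (cnt {k | a' + k ∈ P.A ∧ b' + k ∈ P.B} m N : ℝ) ≤
          cnt {k | a' + k ∈ P.A ∧ b' + k ∈ P.B} (m + n) N + n := by
        exact_mod_cast cnt_shift_le _ m N n
      have h5 : (L' : ℝ) ≤ N := by exact_mod_cast (le_max_right _ _).trans hN
      rw [div_lt_iff₀ hδ] at hL'
      rw [h3]
      nlinarith
    · push Not at hc
      refine ⟨R, Rect.Sub.rfl, 1, fun a ha b hb ⟨N, hN, m, hm⟩ => ?_⟩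
      have h2 : (1 : ℝ) ≤ N := by exact_mod_cast hN
      have h3 : (0 : ℝ) < cnt {n | a + n ∈ P.A ∧ b + n ∈ P.B} m N :=
        lt_of_lt_of_le (by positivity) hm
      obtain ⟨j, -, hj⟩ := exists_of_cnt_pos (by exact_mod_cast h3)
      exact hc a ha b hb _ hj.1 hj.2
  have h2 : ∀ k : ℕ, ∃ Q : Rect 𝓕 𝓖, ∃ L, ∀ f, f < k → ∀ a ∈ Q.A, ∀ b ∈ Q.B,
      ¬ Good P.A P.B δ L (a + f) b := by
    intro k
    induction k with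
    | zero => exact ⟨P, 0, fun f hf => absurd hf (by omega)⟩
    | succ k ih =>
      obtain ⟨Q, L, hL⟩ := ih
      obtain ⟨Q₁, hQ₁, L₁, hL₁⟩ := h1 (Q.img k 0)
      obtain ⟨Q₂, hQ₂, hA, hB⟩ := Rect.exists_pre hQ₁
      refine ⟨Q₂, max L L₁, fun f hf a ha b hb hg => ?_⟩
      rcases Nat.lt_succ_iff_lt_or_eq.1 hf with h | rfl
      · exact hL f h a (hQ₂.1 ha) b (hQ₂.2 hb) (hg.mono (le_max_left _ _))
      · exact hL₁ _ (hA a ha) _ (hB b hb) (hg.mono (le_max_right _ _))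
  obtain ⟨Q, L, hL⟩ := h2 M₀
  obtain ⟨a, ha, c, hc, f, hf, hg⟩ := H Q.A Q.B Q.opA Q.neA (Q.opB.posBD h𝓖 Q.neB) L
  exact hL f hf a ha c hc hg

/-- a common window of returns to `P` for all points of `Q`. -/
def Win (P Q : Rect 𝓕 𝓖) (δ : ℝ) (L : ℕ) : Prop :=
  ∃ N, L ≤ N ∧ ∃ m, ∃ J : Finset ℕ, J ⊆ Finset.range N ∧ δ * N ≤ J.card ∧
    (∀ a ∈ Q.A, ∀ j ∈ J, a + (m + j) ∈ P.A) ∧ ∀ b ∈ Q.B, ∀ j ∈ J, b + (m + j) ∈ P.B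

lemma Win.mono {P Q Q' : Rect 𝓕 𝓖} {δ : ℝ} {L : ℕ} (h : Win P Q δ L) (hQ : Q'.Sub Q) :
    Win P Q' δ L := by
  obtain ⟨N, hN, m, J, h1, h2, h3, h4⟩ := h
  exact ⟨N, hN, m, J, h1, h2, fun a ha => h3 a (hQ.1 ha), fun b hb => h4 b (hQ.2 hb)⟩

theorem exists_win (h𝓕 : ∀ D ∈ 𝓕, PosBD D) (h𝓖 : ∀ D ∈ 𝓖, PosBD D) (P : Rect 𝓕 𝓖) :
    ∃ δ : ℝ, 0 < δ ∧ ∃ R : Rect 𝓕 𝓖, R.Sub P ∧ ∀ Q : Rect 𝓕 𝓖, Q.Sub R → ∀ L,
      ∃ Q' : Rect 𝓕 𝓖, Q'.Sub Q ∧ Win P Q' δ L := by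
  classical
  obtain ⟨δ, hδ, R, hR, H⟩ := exists_dense_good h𝓕 h𝓖 P
  refine ⟨δ, hδ, R, hR, fun Q hQ L => ?_⟩
  obtain ⟨a, ha, b, hb, N, hN, m, hm⟩ := H Q hQ L
  let J := (Finset.range N).filter fun j => m + j ∈ {n | a + n ∈ P.A ∧ b + n ∈ P.B}
  have hJ : ∀ j ∈ J, a + (m + j) ∈ P.A ∧ b + (m + j) ∈ P.B := fun j hj =>
    (Finset.mem_filter.1 hj).2
  let J' := J.image fun j => m + j
  refine ⟨⟨Q.A ∩ {n | ∀ j ∈ J', n + j ∈ P.A}, Q.B ∩ {n | ∀ j ∈ J', n + j ∈ P.B},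
    Q.opA.inter (P.opA.finset J'), Q.opB.inter (P.opB.finset J'), ⟨a, ha, ?_⟩, ⟨b, hb, ?_⟩⟩,
    ⟨Set.inter_subset_left, Set.inter_subset_left⟩, N, hN, m, J, Finset.filter_subset _ _, ?_,
    fun a' ha' j hj => ha'.2 _ (Finset.mem_image_of_mem _ hj),
    fun b' hb' j hj => hb'.2 _ (Finset.mem_image_of_mem _ hj)⟩
  · intro j hj
    obtain ⟨i, hi, rfl⟩ := Finset.mem_image.1 hj
    exact (hJ i hi).1
  · intro j hj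
    obtain ⟨i, hi, rfl⟩ := Finset.mem_image.1 hj
    exact (hJ i hi).2
  · refine hm.trans (le_of_eq ?_)
    unfold cnt
    congr

end Pool.Agent.P.MP_cd1425_an
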