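import Pool.Agent.P.MP_cd1425_an.Reit2
import Pool.Agent.P.MP_cd1425_an.Fold

/-!
Direct sums of reiteratively recurrent operators.
-/

set_option autoImplicit false

open Filter Topology

namespace Pool.Agent.P.MP_cd1425_an

universe u

lemma exists_hist_seq {α : Type*} (a₀ : α) (step : ℕ → α → α → α) :
    ∃ s : ℕ → α, s 0 = a₀ ∧ ∀ k, s (k + 1) = step k (s (Nat.unpair k).1) (s k) := by
  classical
  let h : ℕ → ℕ → α := fun k => Nat.rec (fun _ => a₀)
    (fun k t => Function.update t (k + 1) (step k (t (Nat.unpair k).1) (t k))) k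
  have h1 : ∀ k, h (k + 1) = Function.update (h k) (k + 1)
      (step k (h k (Nat.unpair k).1) (h k k)) := fun _ => rfl
  have h2 : ∀ k j, j ≤ k → h k j = h j j := by
    intro k j hj
    induction k, hj using Nat.le_induction with
    | base => rfl
    | succ k hk ih => rw [h1, Function.update_of_ne (by omega), ih]
  refine ⟨fun k => h k k, rfl, fun k => ?_⟩
  change h (k + 1) (k + 1) = _
  rw [h1, Function.update_self, h2 k _ (Nat.unpair_left_le k)]

section
variable {X : Type*} [PseudoMetricSpace X] {T : X → X}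

/-- the filter generated by the return sets of `x`. -/
def retF (T : X → X) (x : X) : Filter ℕ := comap (fun n => T^[n] x) (𝓝 x)

lemma retF_posBD {x : X} (hx : x ∈ recVectors PosBD T) : ∀ D ∈ retF T x, PosBD D := by
  rintro D ⟨U, hU, hD⟩
  exact (hx U hU).mono hD

lemma op_returnSet (hT : Continuous T) (x : X) {W : Set X} (hW : IsOpen W) :
    Op (retF T x) (returnSet T x W) := by
  intro a ha
  refine ⟨T^[a] ⁻¹' W, (hW.preimage (hT.iterate a)).mem_nhds ha, fun n hn => ?_⟩
  change T^[a + n] x ∈ W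
  rw [Function.iterate_add_apply]
  exact hn

/-- all orbit points indexed by `A` are close to each other. -/
def Small (T : X → X) (x : X) (A : Set ℕ) (k : ℕ) : Prop :=
  ∀ a ∈ A, ∀ a' ∈ A, dist (T^[a] x) (T^[a'] x) ≤ 1 / ((k : ℝ) + 1)

lemma exists_small (hT : Continuous T) (x : X) {A : Set ℕ} (hA : Op (retF T x) A)
    (hne : A.Nonempty) (k : ℕ) :
    ∃ A', A' ⊆ A ∧ Op (retF T x) A' ∧ A'.Nonempty ∧ Small T x A' k := by
  obtain ⟨a, ha⟩ := hne
  refine ⟨A ∩ returnSet T x (Metric.ball (T^[a] x) (1 / ((k : ℝ) + 1) / 2)),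
    Set.inter_subset_left, hA.inter (op_returnSet hT x Metric.isOpen_ball),
    ⟨a, ha, Metric.mem_ball_self (by positivity)⟩, fun b hb b' hb' => ?_⟩
  have h1 : dist (T^[b] x) (T^[a] x) < _ := hb.2
  have h2 : dist (T^[b'] x) (T^[a] x) < _ := hb'.2
  linarith [dist_triangle_right (T^[b] x) (T^[b'] x) (T^[a] x)]

lemma exists_limit [CompleteSpace X] (hT : Continuous T) (x : X) {A : ℕ → Set ℕ}
    (hA : Antitone A) (hne : ∀ k, (A k).Nonempty) (hs : ∀ k, Small T x (A (k + 1)) k) :
    ∃ z : X, z ∈ closure ((fun n => T^[n] x) '' A 0) ∧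
      ∀ j k n, (∀ a ∈ A k, a + n ∈ A (j + 1)) → dist (T^[n] z) z ≤ 1 / ((j : ℝ) + 1) := by
  choose a ha using hne
  have hc : CauchySeq fun k => T^[a (k + 1)] x :=
    cauchySeq_of_le_tendsto_0 (fun N : ℕ => 1 / ((N : ℝ) + 1))
      (fun n m N hn hm => hs N _ (hA (by omega) (ha (n + 1))) _ (hA (by omega) (ha (m + 1))))
      tendsto_one_div_add_atTop_nhds_zero_nat
  obtain ⟨z, hz⟩ := cauchySeq_tendsto_of_complete hc
  refine ⟨z, mem_closure_of_tendsto hz (Eventually.of_forall fun k =>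
    ⟨_, hA (by omega) (ha (k + 1)), rfl⟩), fun j k n h => ?_⟩
  refine le_of_tendsto ((((hT.iterate n).tendsto z).comp hz).dist hz) ?_
  filter_upwards [eventually_ge_atTop (max j k)] with i hi
  have h1 := hs j _ (h _ (hA (by omega) (ha (i + 1)))) _ (hA (by omega) (ha (i + 1)))
  rwa [add_comm, Function.iterate_add_apply] at h1

end

theorem prodStable_posBD : ProdStable.{u} PosBD := by
  classical
  intro X Y _ _ _ _ T S hT hS x hx y hy
  refine Metric.mem_closure_iff.2 fun ε hε => ?_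
  choose δ hδ R hR H using exists_win (retF_posBD hx) (retF_posBD hy)
  have hstep : ∀ (k : ℕ) (P Q : Rect (retF T x) (retF S y)), ∃ Q' : Rect (retF T x) (retF S y),
      Q'.Sub (R Q) ∧ Small T x Q'.A k ∧ Small S y Q'.B k ∧
        ((R Q).Sub (R P) → Win P Q' (δ P) (Nat.unpair k).2) := by
    intro k P Q
    have h1 : ∃ Q₁ : Rect (retF T x) (retF S y), Q₁.Sub (R Q) ∧
        ((R Q).Sub (R P) → Win P Q₁ (δ P) (Nat.unpair k).2) := by
      by_cases h : (R Q).Sub (R P)
      · obtain ⟨Q₁, h1, h2⟩ := H P _ h (Nat.unpair k).2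
        exact ⟨Q₁, h1, fun _ => h2⟩
      · exact ⟨R Q, Rect.Sub.rfl, fun h' => absurd h' h⟩
    obtain ⟨Q₁, h1, h2⟩ := h1
    obtain ⟨A, hA, hAo, hAn, hAs⟩ := exists_small hT x Q₁.opA Q₁.neA k
    obtain ⟨B, hB, hBo, hBn, hBs⟩ := exists_small hS y Q₁.opB Q₁.neB k
    exact ⟨⟨A, B, hAo, hBo, hAn, hBn⟩, Rect.Sub.trans ⟨hA, hB⟩ h1, hAs, hBs,
      fun h => (h2 h).mono ⟨hA, hB⟩⟩
  choose step h1 h2 h3 h4 using hstep
  let P₀ : Rect (retF T x) (retF S y) :=
    ⟨returnSet T x (Metric.ball x (ε / 2)), returnSet S y (Metric.ball y (ε / 2)),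
      op_returnSet hT x Metric.isOpen_ball, op_returnSet hS y Metric.isOpen_ball,
      ⟨0, Metric.mem_ball_self (by positivity)⟩, ⟨0, Metric.mem_ball_self (by positivity)⟩⟩
  obtain ⟨P, hP0, hP⟩ := exists_hist_seq P₀ step
  have hsub : ∀ k, (P (k + 1)).Sub (R (P k)) := fun k => hP k ▸ h1 _ _ _
  have hanti : ∀ j k, j ≤ k → (P k).Sub (P j) := by
    intro j k hj
    induction k, hj using Nat.le_induction with
    | base => exact Rect.Sub.rfl
    | succ k hk ih => exact ((hsub k).trans (hR _)).trans ih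
  have hRanti : ∀ j k, j ≤ k → (R (P k)).Sub (R (P j)) := by
    intro j k hj
    rcases hj.eq_or_lt with rfl | h
    · exact Rect.Sub.rfl
    · exact ((hR _).trans (hanti (j + 1) k h)).trans (hsub j)
  have hwin : ∀ j L, ∃ k, Win (P j) (P k) (δ (P j)) L := by
    intro j L
    refine ⟨Nat.pair j L + 1, ?_⟩
    have := h4 (Nat.pair j L) (P (Nat.unpair (Nat.pair j L)).1) (P (Nat.pair j L))
      (hRanti _ _ (Nat.unpair_left_le _))
    rw [← hP] at this
    simpa using this
  obtain ⟨z, hz, hz'⟩ := exists_limit hT x (A := fun k => (P k).A)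
    (fun j k h => (hanti j k h).1) (fun k => (P k).neA) (fun k => hP k ▸ h2 _ _ _)
  obtain ⟨w, hw, hw'⟩ := exists_limit hS y (A := fun k => (P k).B)
    (fun j k h => (hanti j k h).2) (fun k => (P k).neB) (fun k => hP k ▸ h3 _ _ _)
  refine ⟨(z, w), fun U hU => ?_, ?_⟩
  · obtain ⟨r, hr, hU'⟩ := Metric.mem_nhds_iff.1 hU
    obtain ⟨j, hj⟩ := exists_nat_one_div_lt hr
    refine ⟨δ (P (j + 1)), hδ _, fun L => ?_⟩
    obtain ⟨k, N, hN, m, J, hJ, hJ', hA, hB⟩ := hwin (j + 1) L
    refine ⟨N, hN, m, hJ'.trans ?_⟩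
    have : J.card ≤ cnt (returnSet (Prod.map T S) (z, w) U) m N := by
      unfold cnt
      refine Finset.card_le_card fun i hi => Finset.mem_filter.2 ⟨hJ hi, hU' ?_⟩
      rw [Metric.mem_ball, Prod.map_iterate, Prod.dist_eq]
      exact max_lt ((hz' j k _ fun a ha => hA a ha i hi).trans_lt hj)
        ((hw' j k _ fun a ha => hB a ha i hi).trans_lt hj)
    exact_mod_cast this
  · have e1 : z ∈ Metric.closedBall x (ε / 2) := by
      refine closure_minimal ?_ Metric.isClosed_closedBall hz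
      rintro _ ⟨n, hn, rfl⟩
      rw [hP0] at hn
      exact Metric.ball_subset_closedBall hn
    have e2 : w ∈ Metric.closedBall y (ε / 2) := by
      refine closure_minimal ?_ Metric.isClosed_closedBall hw
      rintro _ ⟨n, hn, rfl⟩
      rw [hP0] at hn
      exact Metric.ball_subset_closedBall hn
    rw [Metric.mem_closedBall'] at e1 e2
    rw [Prod.dist_eq]
    exact max_lt (by linarith) (by linarith)

theorem reiterativelyRecurrent_directSum {𝕜 : Type*} {X : Type u} [RCLike 𝕜] [AddCommGroup X]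
    [Module 𝕜 X] [UniformSpace X] [IsUniformAddGroup X] (hX : IsFrechet 𝕜 X) {T : X → X}
    (hT : Continuous T) (h : ReiterativelyRecurrent T) (n : ℕ) :
    ReiterativelyRecurrent (directSum n T) := by
  have e : (fun A => 0 < upperBanachDensity A) = PosBD := funext fun A => propext (posBD_iff A)
  unfold ReiterativelyRecurrent at h ⊢
  rw [e] at h ⊢
  exact dense_directSum_frechet prodStable_posBD posBD_univ hX hT h n

end Pool.Agent.P.MP_cd1425_an
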