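import Pool.Agent.P.MP_cd1425_an.MinIdeal

/-!
Products of uniformly recurrent points.
-/

set_option autoImplicit false

open Filter Topology

namespace Pool.Agent.P.MP_cd1425_an

section

variable {X : Type*} [PseudoMetricSpace X] {T : X → X}

/-- ultrafilters along which the orbit stays in one ball of radius `ε` centred on the orbit. -/
def nearSet (T : X → X) (x : X) (ε : ℝ) : Set (Ultrafilter ℕ) :=
  {p | ∃ i : ℕ, returnSet T x (Metric.ball (T^[i] x) ε) ∈ p}

lemma isOpen_nearSet (x : X) (ε : ℝ) : IsOpen (nearSet T x ε) := by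
  have : nearSet T x ε =
      ⋃ i : ℕ, {p : Ultrafilter ℕ | returnSet T x (Metric.ball (T^[i] x) ε) ∈ p} := by
    ext p; simp [nearSet]
  rw [this]
  exact isOpen_iUnion fun i => ultrafilter_isOpen_basic _

lemma dense_nearSet (hT : Continuous T) {x : X} (hx : x ∈ recVectors Synd T)
    {L : Set (Ultrafilter ℕ)} (hL : IsMinL L) {ε : ℝ} (hε : 0 < ε) :
    Dense ((Subtype.val : L → Ultrafilter ℕ) ⁻¹' nearSet T x ε) := by
  rw [dense_iff_inter_open]
  rintro V hV ⟨q, hq⟩
  obtain ⟨W, hW, rfl⟩ := isOpen_induced_iff.1 hV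
  obtain ⟨_, ⟨A, rfl⟩, hqA, hAW⟩ := ultrafilterBasis_is_basis.exists_subset_of_mem_open hq hW
  obtain ⟨g, hg⟩ := hL.exists_bound q.2 hqA
  have hU : (⋂ j ∈ Finset.range (g + 1), T^[j] ⁻¹' Metric.ball (T^[j] x) ε) ∈ 𝓝 x := by
    refine (Filter.biInter_finset_mem _).2 fun j _ => ?_
    exact (hT.iterate j).continuousAt.preimage_mem_nhds (Metric.ball_mem_nhds _ hε)
  obtain ⟨j₀, hj₀⟩ := (hx _ hU).exists_shift q.1
  obtain ⟨j, hj, hA⟩ := hg _ (hL.inv _ q.2 j₀)
  refine ⟨⟨shiftU j (shiftU j₀ q.1), hL.inv _ (hL.inv _ q.2 j₀) j⟩, hAW hA, j, ?_⟩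
  refine mem_shiftU.2 (mem_of_superset hj₀ fun m hm => ?_)
  have := Set.mem_iInter₂.1 hm j (by simpa using Nat.lt_succ_of_le hj)
  simpa [returnSet, Function.iterate_add_apply] using this

lemma exists_tendsto_of_nearSet [CompleteSpace X] {x : X} {p : Ultrafilter ℕ}
    (hp : ∀ k : ℕ, p ∈ nearSet T x (1 / ((k : ℝ) + 1))) :
    ∃ x', Tendsto (fun n => T^[n] x) p (𝓝 x') := by
  have hc : Cauchy (map (fun n => T^[n] x) (p : Filter ℕ)) := by
    refine Metric.cauchy_iff.2 ⟨inferInstance, fun ε hε => ?_⟩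
    obtain ⟨k, hk⟩ := exists_nat_one_div_lt (half_pos hε)
    obtain ⟨i, hi⟩ := hp k
    refine ⟨Metric.ball (T^[i] x) (1 / ((k : ℝ) + 1)), hi, fun a ha b hb => ?_⟩
    have h1 := Metric.mem_ball.1 ha
    have h2 := Metric.mem_ball.1 hb
    have h3 := dist_triangle_right a b (T^[i] x)
    linarith
  exact CompleteSpace.complete hc

lemma mem_closure_of_shiftU (hT : Continuous T) {x x' : X} {p : Ultrafilter ℕ}
    (h : Tendsto (fun n => T^[n] x) p (𝓝 x')) {U : Set X} {j : ℕ}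
    (hj : returnSet T x U ∈ shiftU j p) : T^[j] x' ∈ closure U := by
  refine mem_closure_of_tendsto (((hT.iterate j).tendsto x').comp h) ?_
  filter_upwards [mem_shiftU.1 hj] with m hm
  simpa [returnSet, Function.iterate_add_apply] using hm

lemma synd_of_tendsto (hT : Continuous T) {x x' : X} {L : Set (Ultrafilter ℕ)} (hL : IsMinL L)
    {p : Ultrafilter ℕ} (hp : p ∈ L) (h : Tendsto (fun n => T^[n] x) p (𝓝 x')) :
    x' ∈ recVectors Synd T := by
  intro W hW
  obtain ⟨W₁, hW₁, hcl, hsub⟩ := exists_mem_nhds_isClosed_subset hW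
  have h1 : returnSet T x W₁ ∈ p := h hW₁
  obtain ⟨g, hg⟩ := hL.exists_bound hp h1
  refine ⟨g, fun n => ?_⟩
  obtain ⟨j, hj, hA⟩ := hg _ (hL.inv p hp n)
  rw [shiftU_shiftU] at hA
  refine ⟨j, hj, hsub ?_⟩
  have := mem_closure_of_shiftU hT h hA
  rwa [hcl.closure_eq, add_comm j n] at this

end

theorem synd_prod_metric {X Y : Type*} [PseudoMetricSpace X] [CompleteSpace X]
    [PseudoMetricSpace Y] [CompleteSpace Y] {T : X → X} {S : Y → Y}
    (hT : Continuous T) (hS : Continuous S) {x : X} {y : Y}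
    (hx : x ∈ recVectors Synd T) (hy : y ∈ recVectors Synd S) :
    (x, y) ∈ closure (recVectors Synd (Prod.map T S)) := by
  obtain ⟨L, hL⟩ := exists_isMinL
  have : CompactSpace L := isCompact_iff_compactSpace.1 hL.closed.isCompact
  have : Nonempty L := hL.nonempty.to_subtype
  have hd : Dense (⋂ k : ℕ, ((Subtype.val : L → Ultrafilter ℕ) ⁻¹' nearSet T x (1 / ((k : ℝ) + 1))
      ∩ (Subtype.val : L → Ultrafilter ℕ) ⁻¹' nearSet S y (1 / ((k : ℝ) + 1)))) := by
    refine dense_iInter_of_isOpen_nat (fun k => ?_) (fun k => ?_)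
    · exact ((isOpen_nearSet x _).preimage continuous_subtype_val).inter
        ((isOpen_nearSet y _).preimage continuous_subtype_val)
    · exact (dense_nearSet hT hx hL (by positivity)).inter_of_isOpen_left
        (dense_nearSet hS hy hL (by positivity))
        ((isOpen_nearSet x _).preimage continuous_subtype_val)
  obtain ⟨p, hp⟩ := hd.nonempty
  have hp' := Set.mem_iInter.1 hp
  obtain ⟨x', hx'⟩ := exists_tendsto_of_nearSet (T := T) (x := x) (p := p.1) fun k => (hp' k).1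
  obtain ⟨y', hy'⟩ := exists_tendsto_of_nearSet (T := S) (x := y) (p := p.1) fun k => (hp' k).2
  have hxy : Tendsto (fun n => (Prod.map T S)^[n] (x, y)) p.1 (𝓝 (x', y')) := by
    simp only [Prod.map_iterate, Prod.map_apply]
    exact hx'.prodMk_nhds hy'
  have hrec := synd_of_tendsto (hT.prodMap hS) hL p.2 hxy
  rw [mem_closure_iff_nhds]
  intro W hW
  obtain ⟨U, hU, V, hV, hUV⟩ := mem_nhds_prod_iff.1 hW
  obtain ⟨U₁, hU₁, hUc, hUs⟩ := exists_mem_nhds_isClosed_subset hU
  obtain ⟨V₁, hV₁, hVc, hVs⟩ := exists_mem_nhds_isClosed_subset hV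
  obtain ⟨a, ha⟩ := (hx _ hU₁).exists_shift p.1
  obtain ⟨b, hb⟩ := (hy _ hV₁).exists_shift p.1
  have ha' := mem_closure_of_shiftU hT hx' ha
  have hb' := mem_closure_of_shiftU hS hy' hb
  rw [hUc.closure_eq] at ha'
  rw [hVc.closure_eq] at hb'
  refine ⟨(T^[a] x', S^[b] y'), hUV ⟨hUs ha', hVs hb'⟩, ?_⟩
  exact recVectors_map (π := Prod.map T^[a] S^[b]) (S := Prod.map T S) (T := Prod.map T S)
    ((hT.iterate a).prodMap (hS.iterate b))
    (fun z => by
      simp only [Prod.map, ← Function.iterate_succ_apply, Function.iterate_succ_apply'])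
    hrec

end Pool.Agent.P.MP_cd1425_an
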